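import Mathlib

/-!
# Regularity of weak solutions of a Robin problem on a planar Lipschitz epigraph (helper98)

Statements (as `Prop`s) of the parts of the proof that bounded weak `H¹` solutions are `C¹` inside
and continuous up to the boundary. Coordinates: `p = (x, y) = (p.1, p.2)` in `ℝ × ℝ` (sup metric).
-/

set_option autoImplicit false

open MeasureTheory Set Filter Topology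
open scoped ENNReal NNReal

namespace Pool.Agent.W98.RB

/-- the open epigraph of `ϕ` -/
def Om (ϕ : ℝ → ℝ) : Set (ℝ × ℝ) := {p | ϕ p.1 < p.2}

/-- the closed epigraph of `ϕ` -/
def Oc (ϕ : ℝ → ℝ) : Set (ℝ × ℝ) := {p | ϕ p.1 ≤ p.2}

/-- partial derivatives -/
noncomputable def dx (v : ℝ × ℝ → ℝ) (p : ℝ × ℝ) : ℝ := fderiv ℝ v p (1, 0)

/-- partial derivatives -/
noncomputable def dy (v : ℝ × ℝ → ℝ) (p : ℝ × ℝ) : ℝ := fderiv ℝ v p (0, 1)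

/-- Laplacian -/
noncomputable def lap (v : ℝ × ℝ → ℝ) (p : ℝ × ℝ) : ℝ := dx (dx v) p + dy (dy v) p

/-- the `C¹` ramp; `0 ≤ H' < 1`, `0 ≤ H s ≤ max s 0`, `H s > 0` iff `s > 0` -/
noncomputable def H (s : ℝ) : ℝ := (max s 0) ^ 2 / (1 + max s 0)

/-- its derivative -/
noncomputable def H' (s : ℝ) : ℝ := 1 - 1 / (1 + max s 0) ^ 2

/-- `u` is `H¹` on bounded pieces of `Om ϕ` with gradient `(Gx, Gy)` and boundary trace `T`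
(in the graph coordinate); `v k` are `C¹` approximants. -/
structure Ap (ϕ : ℝ → ℝ) (u Gx Gy : ℝ × ℝ → ℝ) (T : ℝ → ℝ) (v : ℕ → ℝ × ℝ → ℝ) : Prop where
  mu : Measurable u
  mx : Measurable Gx
  my : Measurable Gy
  mT : Measurable T
  c1 : ∀ k, ContDiff ℝ 1 (v k)
  cu : ∀ R : ℝ, Tendsto (fun k => eLpNorm (fun p => v k p - u p) 2
    (volume.restrict (Om ϕ ∩ Metric.ball 0 R))) atTop (𝓝 0)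
  cx : ∀ R : ℝ, Tendsto (fun k => eLpNorm (fun p => dx (v k) p - Gx p) 2
    (volume.restrict (Om ϕ ∩ Metric.ball 0 R))) atTop (𝓝 0)
  cy : ∀ R : ℝ, Tendsto (fun k => eLpNorm (fun p => dy (v k) p - Gy p) 2
    (volume.restrict (Om ϕ ∩ Metric.ball 0 R))) atTop (𝓝 0)
  cT : ∀ R : ℝ, Tendsto (fun k => eLpNorm (fun x => v k (x, ϕ x) - T x) 2
    (volume.restrict (Metric.ball 0 R))) atTop (𝓝 0)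

/-- the weak form of `-Δu = g` in `Om ϕ`, `u + α ∂_ν u = 0` on the boundary, `σ` surface element -/
def Weak (ϕ : ℝ → ℝ) (α : ℝ) (σ : ℝ → ℝ) (Gx Gy : ℝ × ℝ → ℝ) (T : ℝ → ℝ)
    (g : ℝ × ℝ → ℝ) : Prop :=
  ∀ ψ : ℝ × ℝ → ℝ, ContDiff ℝ 1 ψ → HasCompactSupport ψ →
    (∫ p in Om ϕ, (Gx p * dx ψ p + Gy p * dy ψ p)) + α⁻¹ * ∫ x, T x * ψ (x, ϕ x) * σ x
      = ∫ p in Om ϕ, g p * ψ p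

/-- all standing hypotheses together -/
structure Sol (ϕ : ℝ → ℝ) (K : ℝ≥0) (α : ℝ) (σ : ℝ → ℝ) (S : ℝ) (F : ℝ)
    (u Gx Gy : ℝ × ℝ → ℝ) (T : ℝ → ℝ) (g : ℝ × ℝ → ℝ) (v : ℕ → ℝ × ℝ → ℝ) : Prop where
  lip : LipschitzWith K ϕ
  apos : 0 < α
  ms : Measurable σ
  s0 : ∀ x, 0 ≤ σ x
  sS : ∀ x, σ x ≤ S
  mg : Measurable g
  g0 : ∀ p ∈ Om ϕ, 0 ≤ g p
  gF : ∀ p ∈ Om ϕ, g p ≤ F
  u0 : ∀ p ∈ Om ϕ, 0 ≤ u p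
  u1 : ∀ p ∈ Om ϕ, u p ≤ 1
  ap : Ap ϕ u Gx Gy T v
  wk : Weak ϕ α σ Gx Gy T g

/-- open box with centre `(x₀, y₀)`, half width `ρ`, half height `L * ρ` -/
def Bx (x₀ y₀ L ρ : ℝ) : Set (ℝ × ℝ) := {p | |p.1 - x₀| < ρ ∧ |p.2 - y₀| < L * ρ}

/-- line integrals of `|b|`, `|a|`, `|b|` over the left, top and right side of the box inside the
epigraph -/
noncomputable def EL (ϕ : ℝ → ℝ) (x₀ y₀ L : ℝ) (a b : ℝ × ℝ → ℝ) (ρ : ℝ) : ℝ≥0∞ :=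
  (∫⁻ y in Ioo (ϕ (x₀ - ρ)) (y₀ + L * ρ), ‖b (x₀ - ρ, y)‖ₑ)
    + (∫⁻ x in Ioo (x₀ - ρ) (x₀ + ρ), ‖a (x, y₀ + L * ρ)‖ₑ)
    + (∫⁻ y in Ioo (ϕ (x₀ + ρ)) (y₀ + L * ρ), ‖b (x₀ + ρ, y)‖ₑ)

/-! ### statements -/

/-- RB-CUT: a cut-off test function -/
def S_CUT : Prop := ∀ ϕ : ℝ → ℝ, Continuous ϕ → ∀ B : Set (ℝ × ℝ), IsOpen B →
  Bornology.IsBounded B → ∀ z : ℝ × ℝ → ℝ, ContDiff ℝ 1 z →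
  (∀ p ∈ frontier B ∩ Oc ϕ, z p < 0) →
  ∃ ψ : ℝ × ℝ → ℝ, ContDiff ℝ 1 ψ ∧ HasCompactSupport ψ ∧ (∀ p, 0 ≤ ψ p) ∧ tsupport ψ ⊆ B ∧
    (∀ p ∈ Oc ϕ ∩ B, ψ p = H (z p)) ∧
    (∀ p ∈ Om ϕ ∩ B, fderiv ℝ ψ p = H' (z p) • fderiv ℝ z p)

/-- RB-LIN: integration along vertical lines -/
def S_LIN : Prop := ∀ ϕ : ℝ → ℝ, Continuous ϕ → ∀ ψ : ℝ × ℝ → ℝ, ContDiff ℝ 1 ψ →
  HasCompactSupport ψ → ∫ p in Om ϕ, dy ψ p = -∫ x, ψ (x, ϕ x)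

/-- RB-POI: one dimensional Poincare inequality along vertical lines -/
def S_POI : Prop := ∀ ϕ : ℝ → ℝ, Continuous ϕ → ∀ ψ : ℝ × ℝ → ℝ, ContDiff ℝ 1 ψ →
  HasCompactSupport ψ → ∀ y₁ h : ℝ, 0 ≤ h →
  (∀ p ∈ Om ϕ, ψ p ≠ 0 → y₁ ≤ p.2 ∧ p.2 ≤ y₁ + h) →
  ∫ p in Om ϕ, |ψ p| ≤ h * ∫ p in Om ϕ, |dy ψ p|

/-- RB-MAX: weak maximum principle from above -/
def S_MAX : Prop := ∀ (ϕ : ℝ → ℝ) (K : ℝ≥0) (α : ℝ) (σ : ℝ → ℝ) (S F : ℝ)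
  (u Gx Gy : ℝ × ℝ → ℝ) (T : ℝ → ℝ) (g : ℝ × ℝ → ℝ) (v : ℕ → ℝ × ℝ → ℝ),
  Sol ϕ K α σ S F u Gx Gy T g v → ∀ B : Set (ℝ × ℝ), IsOpen B → Bornology.IsBounded B →
  ∀ y₁ h : ℝ, 0 ≤ h → (∀ p ∈ B, y₁ ≤ p.2 ∧ p.2 ≤ y₁ + h) → ∀ M : ℝ, 0 ≤ M →
  (∀ δ > 0, ∀ᶠ k in atTop, ∀ p ∈ frontier B ∩ Oc ϕ, v k p ≤ M + δ) →
  ∀ᵐ p ∂(volume.restrict (B ∩ Om ϕ)), u p ≤ M + F * h ^ 2 / 2

/-- RB-MIN: weak maximum principle from below -/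
def S_MIN : Prop := ∀ (ϕ : ℝ → ℝ) (K : ℝ≥0) (α : ℝ) (σ : ℝ → ℝ) (S F : ℝ)
  (u Gx Gy : ℝ × ℝ → ℝ) (T : ℝ → ℝ) (g : ℝ × ℝ → ℝ) (v : ℕ → ℝ × ℝ → ℝ),
  Sol ϕ K α σ S F u Gx Gy T g v → ∀ B : Set (ℝ × ℝ), IsOpen B → Bornology.IsBounded B →
  ∀ y₁ h : ℝ, 0 ≤ h → (∀ p ∈ B, y₁ ≤ p.2 ∧ p.2 ≤ y₁ + h) → ∀ m : ℝ, m ≤ 1 →
  (∀ δ > 0, ∀ᶠ k in atTop, ∀ p ∈ frontier B ∩ Oc ϕ, m - δ ≤ v k p) →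
  ∀ᵐ p ∂(volume.restrict (B ∩ Om ϕ)), m - α⁻¹ * S * h ≤ u p

/-- RB-PATH: oscillation on the part of the boundary of the box in the closed epigraph -/
def S_PATH : Prop := ∀ (ϕ : ℝ → ℝ) (K : ℝ≥0), LipschitzWith K ϕ → ∀ v : ℝ × ℝ → ℝ,
  ContDiff ℝ 1 v → ∀ x₀ ρ : ℝ, 0 < ρ →
  ∀ p ∈ frontier (Bx x₀ (ϕ x₀) (K + 1) ρ) ∩ Oc ϕ, ∀ x ∈ Icc (x₀ - ρ) (x₀ + ρ),
    ENNReal.ofReal |v p - v (x, ϕ x₀ + (K + 1) * ρ)| ≤ EL ϕ x₀ (ϕ x₀) (K + 1) (dx v) (dy v) ρ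

/-- RB-TON: Tonelli for the line integrals -/
def S_TON : Prop := ∀ (ϕ : ℝ → ℝ) (K : ℝ≥0), LipschitzWith K ϕ → ∀ a b : ℝ × ℝ → ℝ,
  Measurable a → Measurable b → ∀ x₀ : ℝ,
  Measurable (EL ϕ x₀ (ϕ x₀) (K + 1) a b) ∧ ∀ ρ₀ : ℝ, 0 < ρ₀ →
    ∫⁻ ρ in Ioo 0 ρ₀, EL ϕ x₀ (ϕ x₀) (K + 1) a b ρ
      ≤ 2 * ∫⁻ p in Om ϕ ∩ Bx x₀ (ϕ x₀) (K + 1) ρ₀, (‖a p‖ₑ + ‖b p‖ₑ)

/-- RB-CL: Courant - Lebesgue selection of a good radius -/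
def S_CL : Prop := ∀ (ϕ : ℝ → ℝ) (K : ℝ≥0), LipschitzWith K ϕ → ∀ a b : ℝ × ℝ → ℝ,
  Measurable a → Measurable b → ∀ x₀ ρ₀ : ℝ, 0 < ρ₀ →
  ∫⁻ p in Om ϕ ∩ Bx x₀ (ϕ x₀) (K + 1) ρ₀, (‖a p‖ₑ ^ 2 + ‖b p‖ₑ ^ 2) ≠ ⊤ →
  ∀ ε : ℝ≥0∞, 0 < ε → volume {ρ ∈ Ioo 0 ρ₀ | EL ϕ x₀ (ϕ x₀) (K + 1) a b ρ < ε} ≠ 0

/-- RB-SEL: along a subsequence the approximants are nearly constant on the boundary of a small box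
(assembly of PATH, TON, CL) -/
def S_SEL : Prop := ∀ (ϕ : ℝ → ℝ) (K : ℝ≥0), LipschitzWith K ϕ →
  ∀ (u Gx Gy : ℝ × ℝ → ℝ) (T : ℝ → ℝ) (v : ℕ → ℝ × ℝ → ℝ), Ap ϕ u Gx Gy T v →
  (∀ p ∈ Om ϕ, 0 ≤ u p ∧ u p ≤ 1) → ∀ x₀ ε ρ₀ : ℝ, 0 < ε → 0 < ρ₀ →
  ∃ ρ ∈ Ioo 0 ρ₀, ∃ s : ℕ → ℕ, StrictMono s ∧ ∃ c ∈ Icc (0 : ℝ) 1, ∀ᶠ j in atTop,
    ∀ p ∈ frontier (Bx x₀ (ϕ x₀) (K + 1) ρ) ∩ Oc ϕ, |v (s j) p - c| ≤ ε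

/-- RB-GR: interior gradient estimate -/
def S_GR : Prop := ∀ (w : ℝ × ℝ → ℝ), ContDiff ℝ 2 w → ∀ (p₀ : ℝ × ℝ) (R M F : ℝ), 0 < R →
  (∀ p : ℝ × ℝ, |p.1 - p₀.1| ≤ R → |p.2 - p₀.2| ≤ R → |w p| ≤ M ∧ |lap w p| ≤ F) →
  |dx w p₀| ≤ 2 * M / R + F * R / 2 ∧ |dy w p₀| ≤ 2 * M / R + F * R / 2

/-- RB-WL: weak derivatives and weak Laplacian in the interior -/
def S_WL : Prop := ∀ (ϕ : ℝ → ℝ) (K : ℝ≥0) (α : ℝ) (σ : ℝ → ℝ) (S F : ℝ)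
  (u Gx Gy : ℝ × ℝ → ℝ) (T : ℝ → ℝ) (g : ℝ × ℝ → ℝ) (v : ℕ → ℝ × ℝ → ℝ),
  Sol ϕ K α σ S F u Gx Gy T g v → ∀ η : ℝ × ℝ → ℝ, ContDiff ℝ (⊤ : ℕ∞) η →
  HasCompactSupport η → tsupport η ⊆ Om ϕ →
  (∫ p in Om ϕ, u p * dx η p = -∫ p in Om ϕ, Gx p * η p) ∧
  (∫ p in Om ϕ, u p * dy η p = -∫ p in Om ϕ, Gy p * η p) ∧
  (∫ p in Om ϕ, u p * lap η p = -∫ p in Om ϕ, g p * η p)

/-- RB-MOL: mollification of a bounded distributional solution of `Δu = -g` -/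
def S_MOL : Prop := ∀ (Ω : Set (ℝ × ℝ)), IsOpen Ω → ∀ u g : ℝ × ℝ → ℝ, Measurable u →
  Measurable g → ∀ M F : ℝ, (∀ p ∈ Ω, |u p| ≤ M) → (∀ p ∈ Ω, |g p| ≤ F) →
  (∀ η : ℝ × ℝ → ℝ, ContDiff ℝ (⊤ : ℕ∞) η → HasCompactSupport η → tsupport η ⊆ Ω →
    ∫ p in Ω, u p * lap η p = -∫ p in Ω, g p * η p) →
  ∃ w : ℕ → ℝ × ℝ → ℝ, (∀ n, ContDiff ℝ (⊤ : ℕ∞) (w n)) ∧
    (∀ (n : ℕ) (p : ℝ × ℝ), Metric.closedBall p (1 / ((n : ℝ) + 1)) ⊆ Ω →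
      |w n p| ≤ M ∧ |lap (w n) p| ≤ F) ∧
    (∀ᵐ p ∂(volume.restrict Ω), Tendsto (fun n => w n p) atTop (𝓝 (u p)))

/-- RB-C1: passage to the limit in the mollification, by the gradient estimate -/
def S_C1 : Prop := ∀ (Ω : Set (ℝ × ℝ)), IsOpen Ω → ∀ u : ℝ × ℝ → ℝ, ∀ M F : ℝ,
  (∃ w : ℕ → ℝ × ℝ → ℝ, (∀ n, ContDiff ℝ (⊤ : ℕ∞) (w n)) ∧
    (∀ (n : ℕ) (p : ℝ × ℝ), Metric.closedBall p (1 / ((n : ℝ) + 1)) ⊆ Ω →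
      |w n p| ≤ M ∧ |lap (w n) p| ≤ F) ∧
    (∀ᵐ p ∂(volume.restrict Ω), Tendsto (fun n => w n p) atTop (𝓝 (u p)))) →
  ∃ U : ℝ × ℝ → ℝ, ContDiffOn ℝ 1 U Ω ∧ ∀ᵐ p ∂(volume.restrict Ω), U p = u p

/-- RB-ID: a weak derivative of a `C¹` function is the classical one -/
def S_ID : Prop := ∀ (Ω : Set (ℝ × ℝ)), IsOpen Ω → ∀ U G : ℝ × ℝ → ℝ, ContDiffOn ℝ 1 U Ω →
  Measurable G → (∀ R : ℝ, IntegrableOn G (Ω ∩ Metric.ball 0 R)) →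
  ((∀ η : ℝ × ℝ → ℝ, ContDiff ℝ (⊤ : ℕ∞) η → HasCompactSupport η → tsupport η ⊆ Ω →
      ∫ p in Ω, U p * dx η p = -∫ p in Ω, G p * η p) →
    ∀ᵐ p ∂(volume.restrict Ω), dx U p = G p) ∧
  ((∀ η : ℝ × ℝ → ℝ, ContDiff ℝ (⊤ : ℕ∞) η → HasCompactSupport η → tsupport η ⊆ Ω →
      ∫ p in Ω, U p * dy η p = -∫ p in Ω, G p * η p) →
    ∀ᵐ p ∂(volume.restrict Ω), dy U p = G p)

/-- RB-CONT: the `C¹` representative has limits at all boundary points -/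
def S_CONT : Prop := ∀ (ϕ : ℝ → ℝ) (K : ℝ≥0) (α : ℝ) (σ : ℝ → ℝ) (S F : ℝ)
  (u Gx Gy : ℝ × ℝ → ℝ) (T : ℝ → ℝ) (g : ℝ × ℝ → ℝ) (v : ℕ → ℝ × ℝ → ℝ),
  Sol ϕ K α σ S F u Gx Gy T g v → ∀ U : ℝ × ℝ → ℝ, ContinuousOn U (Om ϕ) →
  (∀ᵐ p ∂(volume.restrict (Om ϕ)), U p = u p) →
  ∀ x₀ : ℝ, ∃ c : ℝ, Tendsto U (𝓝[Om ϕ] (x₀, ϕ x₀)) (𝓝 c)

/-- RB-TR: the trace of a function continuous up to the boundary -/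
def S_TR : Prop := ∀ ϕ : ℝ → ℝ, Continuous ϕ →
  ∀ (u Gx Gy : ℝ × ℝ → ℝ) (T : ℝ → ℝ) (v : ℕ → ℝ × ℝ → ℝ), Ap ϕ u Gx Gy T v →
  ∀ U : ℝ × ℝ → ℝ, ContinuousOn U (Oc ϕ) → (∀ᵐ p ∂(volume.restrict (Om ϕ)), U p = u p) →
  ∀ᵐ x : ℝ, T x = U (x, ϕ x)

/-- a point of the Euclidean plane -/
noncomputable def pt (x y : ℝ) : EuclideanSpace ℝ (Fin 2) := !₂[x, y]

/-- the profile of the well: `0` outside `[-w, w]`, `-H₀` on the bottom, slopes `± L` -/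
noncomputable def prof (H₀ L w : ℝ) (x : ℝ) : ℝ := max (-H₀) (min 0 (L * (|x| - w)))

/-- its surface element -/
noncomputable def surfp (H₀ L w : ℝ) (x : ℝ) : ℝ :=
  if w - H₀ / L < |x| ∧ |x| < w then Real.sqrt (1 + L ^ 2) else 1

/-- RB-HAUS: one-dimensional Hausdorff measure of the graph of `prof` in the Euclidean plane -/
def S_HAUS : Prop := ∀ H₀ L w : ℝ, 0 < H₀ → 0 < L → H₀ / L < w →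
  (Measure.hausdorffMeasure (1 : ℝ) : Measure (EuclideanSpace ℝ (Fin 2))).restrict
      (Set.range fun x => pt x (prof H₀ L w x))
    = Measure.map (fun x => pt x (prof H₀ L w x))
        (volume.withDensity fun x => ENNReal.ofReal (surfp H₀ L w x))

end Pool.Agent.W98.RB
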