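import Mathlib
import Pool.Agent.W98.RB.Defs

set_option autoImplicit false

open MeasureTheory Set Filter Topology
open scoped ENNReal NNReal

namespace Pool.Agent.W98.RB

lemma Sol.sub {ϕ : ℝ → ℝ} {K : ℝ≥0} {α : ℝ} {σ : ℝ → ℝ} {S F : ℝ}
    {u Gx Gy : ℝ × ℝ → ℝ} {T : ℝ → ℝ} {g : ℝ × ℝ → ℝ} {v : ℕ → ℝ × ℝ → ℝ}
    (h : Sol ϕ K α σ S F u Gx Gy T g v) {s : ℕ → ℕ} (hs : StrictMono s) :
    Sol ϕ K α σ S F u Gx Gy T g (fun j => v (s j)) :=
  { lip := h.lip
    apos := h.apos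
    ms := h.ms
    s0 := h.s0
    sS := h.sS
    mg := h.mg
    g0 := h.g0
    gF := h.gF
    u0 := h.u0
    u1 := h.u1
    wk := h.wk
    ap :=
      { mu := h.ap.mu
        mx := h.ap.mx
        my := h.ap.my
        mT := h.ap.mT
        c1 := fun k => h.ap.c1 (s k)
        cu := fun R => (h.ap.cu R).comp hs.tendsto_atTop
        cx := fun R => (h.ap.cx R).comp hs.tendsto_atTop
        cy := fun R => (h.ap.cy R).comp hs.tendsto_atTop
        cT := fun R => (h.ap.cT R).comp hs.tendsto_atTop } }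

lemma isOpen_Bx (x₀ y₀ L ρ : ℝ) : IsOpen (Bx x₀ y₀ L ρ) := by
  apply IsOpen.inter
  · exact isOpen_lt (continuous_fst.sub continuous_const).abs continuous_const
  · exact isOpen_lt (continuous_snd.sub continuous_const).abs continuous_const

lemma isBounded_Bx (x₀ y₀ L ρ : ℝ) : Bornology.IsBounded (Bx x₀ y₀ L ρ) := by
  have : Bx x₀ y₀ L ρ ⊆ Metric.closedBall (x₀, y₀) (max ρ (L * ρ)) := by
    rintro p ⟨h1, h2⟩
    rw [Metric.mem_closedBall, Prod.dist_eq]
    apply max_le_max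
    · rw [Real.dist_eq]; exact h1.le
    · rw [Real.dist_eq]; exact h2.le
  exact Metric.isBounded_closedBall.subset this

/-- from a.e. to everywhere on an open set -/
lemma ge_of_ae {O : Set (ℝ × ℝ)} (hO : IsOpen O) {U : ℝ × ℝ → ℝ} (hU : ContinuousOn U O) {a b : ℝ}
    (h : ∀ᵐ p ∂(volume.restrict O), a ≤ U p ∧ U p ≤ b) {p : ℝ × ℝ} (hp : p ∈ O) :
    a ≤ U p ∧ U p ≤ b := by
  rw [ae_restrict_iff' hO.measurableSet] at h
  constructor
  · by_contra hlt
    push Not at hlt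
    have hop : IsOpen (O ∩ U ⁻¹' Iio a) := hU.isOpen_inter_preimage hO isOpen_Iio
    have hpos := hop.measure_pos volume ⟨p, hp, hlt⟩
    have h0 : volume (O ∩ U ⁻¹' Iio a) = 0 := by
      refine measure_mono_null ?_ h
      intro q hq hq2
      have h3 := (hq2 hq.1).1
      have h4 : U q < a := hq.2
      linarith
    rw [h0] at hpos
    exact lt_irrefl _ hpos
  · by_contra hlt
    push Not at hlt
    have hop : IsOpen (O ∩ U ⁻¹' Ioi b) := hU.isOpen_inter_preimage hO isOpen_Ioi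
    have hpos := hop.measure_pos volume ⟨p, hp, hlt⟩
    have h0 : volume (O ∩ U ⁻¹' Ioi b) = 0 := by
      refine measure_mono_null ?_ h
      intro q hq hq2
      have h3 := (hq2 hq.1).2
      have h4 : b < U q := hq.2
      linarith
    rw [h0] at hpos
    exact lt_irrefl _ hpos

theorem T_CONT (hS : S_SEL) (hM : S_MAX) (hm : S_MIN) : S_CONT := by
  intro ϕ K α σ S F u Gx Gy T g v h U hU hUu x₀
  have hϕ : Continuous ϕ := h.lip.continuous
  have hO : IsOpen (Om ϕ) := isOpen_lt (hϕ.comp continuous_fst) continuous_snd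
  -- constants
  have hS0 : 0 ≤ S := (h.s0 0).trans (h.sS 0)
  have hmem : ((0 : ℝ), ϕ 0 + 1) ∈ Om ϕ := by show ϕ 0 < ϕ 0 + 1; linarith
  have hF0 : 0 ≤ F := (h.g0 _ hmem).trans (h.gF _ hmem)
  have hα0 : 0 ≤ α⁻¹ := (inv_pos.mpr h.apos).le
  set L : ℝ := K + 1 with hL
  have hL1 : 1 ≤ L := by rw [hL]; have := K.coe_nonneg; linarith
  have hne : (𝓝[Om ϕ] (x₀, ϕ x₀)).NeBot := by
    rw [← mem_closure_iff_nhdsWithin_neBot]
    have h1 : Tendsto (fun t : ℝ => ((x₀, ϕ x₀ + t) : ℝ × ℝ)) (𝓝[>] 0) (𝓝 (x₀, ϕ x₀)) := by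
      have h2 : Continuous (fun t : ℝ => ((x₀, ϕ x₀ + t) : ℝ × ℝ)) := by fun_prop
      have h4 := h2.tendsto 0
      simp only [add_zero] at h4
      exact h4.mono_left nhdsWithin_le_nhds
    refine mem_closure_of_tendsto h1 ?_
    filter_upwards [self_mem_nhdsWithin] with t ht
    have : (0:ℝ) < t := ht
    show ϕ x₀ < ϕ x₀ + t
    linarith
  have hcau : Cauchy (map U (𝓝[Om ϕ] (x₀, ϕ x₀))) := by
    rw [Metric.cauchy_iff]
    refine ⟨hne.map U, ?_⟩
    intro ε hε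
    -- small radius
    set A : ℝ := α⁻¹ * S * (2 * L) + F * (2 * L) ^ 2 / 2 + 1 with hA
    have hApos : 0 < A := by positivity
    set ρ₀ : ℝ := min 1 (ε / 10 / A) with hρ₀
    have hρ₀pos : 0 < ρ₀ := lt_min one_pos (by positivity)
    obtain ⟨ρ, ⟨hρ0, hρ1⟩, s, hs, c, ⟨hc0, hc1⟩, hev⟩ :=
      hS ϕ K h.lip u Gx Gy T v h.ap (fun p hp => ⟨h.u0 p hp, h.u1 p hp⟩) x₀ (ε / 10) ρ₀
        (by positivity) hρ₀pos
    set B := Bx x₀ (ϕ x₀) L ρ with hB
    have hsol := h.sub hs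
    have hρle : ρ ≤ 1 := hρ1.le.trans (min_le_left _ _)
    have hρA : ρ * A ≤ ε / 10 := by
      have h1 : ρ ≤ ε / 10 / A := hρ1.le.trans (min_le_right _ _)
      calc ρ * A ≤ ε / 10 / A * A := mul_le_mul_of_nonneg_right h1 hApos.le
        _ = ε / 10 := by field_simp
    have hBy : ∀ p ∈ B, (ϕ x₀ - L * ρ) ≤ p.2 ∧ p.2 ≤ (ϕ x₀ - L * ρ) + 2 * L * ρ := by
      rintro p ⟨_, h2⟩
      rw [abs_lt] at h2
      constructor <;> linarith [h2.1, h2.2]
    have hh0 : 0 ≤ 2 * L * ρ := by positivity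
    have hup := hM ϕ K α σ S F u Gx Gy T g _ hsol B (isOpen_Bx _ _ _ _) (isBounded_Bx _ _ _ _)
      (ϕ x₀ - L * ρ) (2 * L * ρ) hh0 hBy (c + ε / 10) (by positivity) (by
        intro δ hδ
        filter_upwards [hev] with j hj p hp
        have := (abs_le.mp (hj p hp)).2
        linarith)
    have hlo := hm ϕ K α σ S F u Gx Gy T g _ hsol B (isOpen_Bx _ _ _ _) (isBounded_Bx _ _ _ _)
      (ϕ x₀ - L * ρ) (2 * L * ρ) hh0 hBy (c - ε / 10) (by linarith) (by
        intro δ hδ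
        filter_upwards [hev] with j hj p hp
        have := (abs_le.mp (hj p hp)).1
        linarith)
    have e1 : F * (2 * L * ρ) ^ 2 / 2 ≤ ε / 10 := by
      have : F * (2 * L * ρ) ^ 2 / 2 ≤ ρ * A := by
        have h3 : F * (2 * L * ρ) ^ 2 / 2 = ρ * (ρ * (F * (2 * L) ^ 2 / 2)) := by ring
        rw [h3]
        apply mul_le_mul_of_nonneg_left _ hρ0.le
        have h4 : 0 ≤ F * (2 * L) ^ 2 / 2 := by positivity
        have h5 : ρ * (F * (2 * L) ^ 2 / 2) ≤ 1 * (F * (2 * L) ^ 2 / 2) :=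
          mul_le_mul_of_nonneg_right hρle h4
        have h6 : 0 ≤ α⁻¹ * S * (2 * L) := by positivity
        rw [hA]; linarith
      linarith
    have e2 : α⁻¹ * S * (2 * L * ρ) ≤ ε / 10 := by
      have : α⁻¹ * S * (2 * L * ρ) ≤ ρ * A := by
        have h3 : α⁻¹ * S * (2 * L * ρ) = ρ * (α⁻¹ * S * (2 * L)) := by ring
        rw [h3]
        apply mul_le_mul_of_nonneg_left _ hρ0.le
        have h4 : 0 ≤ F * (2 * L) ^ 2 / 2 := by positivity
        rw [hA]; linarith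
      linarith
    have hBO : IsOpen (B ∩ Om ϕ) := (isOpen_Bx _ _ _ _).inter hO
    have hr : volume.restrict (B ∩ Om ϕ) ≤ volume.restrict (Om ϕ) :=
      Measure.restrict_mono inter_subset_right le_rfl
    have hae : ∀ᵐ p ∂(volume.restrict (B ∩ Om ϕ)), c - ε / 5 ≤ U p ∧ U p ≤ c + ε / 5 := by
      filter_upwards [hup, hlo, ae_mono hr hUu] with p h1 h2 h3
      rw [h3]
      constructor <;> linarith
    have hall : ∀ p ∈ B ∩ Om ϕ, c - ε / 5 ≤ U p ∧ U p ≤ c + ε / 5 := fun p hp =>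
      ge_of_ae hBO (hU.mono inter_subset_right) hae hp
    refine ⟨U '' (B ∩ Om ϕ), ?_, ?_⟩
    · apply image_mem_map
      have h1 : B ∈ 𝓝 (x₀, ϕ x₀) := by
        apply (isOpen_Bx _ _ _ _).mem_nhds
        refine ⟨?_, ?_⟩
        · show |x₀ - x₀| < ρ
          simpa using hρ0
        · show |ϕ x₀ - ϕ x₀| < L * ρ
          rw [sub_self, abs_zero]
          positivity
      rw [inter_comm]
      exact inter_mem_nhdsWithin _ h1
    · rintro _ ⟨p, hp, rfl⟩ _ ⟨q, hq, rfl⟩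
      rw [Real.dist_eq, abs_lt]
      have h1 := hall p hp
      have h2 := hall q hq
      constructor <;> linarith [h1.1, h1.2, h2.1, h2.2]
  obtain ⟨c, hc⟩ := CompleteSpace.complete hcau
  exact ⟨c, hc⟩

end Pool.Agent.W98.RB
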