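import Mathlib
import Pool.Agent.W98.RB.Defs

set_option autoImplicit false

open MeasureTheory Set Filter Topology
open scoped ENNReal NNReal ContDiff Manifold

namespace Pool.Agent.W98.RB

lemma H_neg {s : ℝ} (hs : s ≤ 0) : H s = 0 := by
  unfold H; rw [max_eq_right hs]; simp

lemma H'_neg {s : ℝ} (hs : s ≤ 0) : H' s = 0 := by
  unfold H'; rw [max_eq_right hs]; simp

lemma H_nonneg (s : ℝ) : 0 ≤ H s := by
  unfold H
  have : 0 ≤ max s 0 := le_max_right _ _
  positivity

lemma H_hasDerivAt (s : ℝ) : HasDerivAt H (H' s) s := by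
  have hpos : ∀ t : ℝ, 0 < t → HasDerivAt (fun t : ℝ => t ^ 2 / (1 + t)) (1 - 1 / (1 + t) ^ 2) t := by
    intro t ht
    have h1 : HasDerivAt (fun t : ℝ => t ^ 2) (2 * t) t := by simpa using hasDerivAt_pow 2 t
    have h2 : HasDerivAt (fun t : ℝ => 1 + t) 1 t := by simpa using (hasDerivAt_id t).const_add 1
    have h3 := h1.div h2 (by positivity)
    have hne : (1 + t) ≠ 0 := by positivity
    have e : 1 - 1 / (1 + t) ^ 2 = (2 * t * (1 + t) - t ^ 2 * 1) / (1 + t) ^ 2 := by
      rw [eq_div_iff (pow_ne_zero 2 hne), sub_mul, div_mul_cancel₀ _ (pow_ne_zero 2 hne)]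
      ring
    rw [e]
    exact h3
  rcases lt_trichotomy s 0 with hs | hs | hs
  · rw [H'_neg hs.le]
    have h1 : H =ᶠ[𝓝 s] fun _ => 0 := by
      filter_upwards [Iio_mem_nhds hs] with t ht using H_neg (le_of_lt ht)
    exact (hasDerivAt_const s (0:ℝ)).congr_of_eventuallyEq h1
  · subst hs
    rw [H'_neg le_rfl, hasDerivAt_iff_isLittleO_nhds_zero]
    have hb : ∀ t : ℝ, |H t| ≤ |t| ^ 2 := by
      intro t
      rw [abs_of_nonneg (H_nonneg t)]
      unfold H
      have h0 : 0 ≤ max t 0 := le_max_right _ _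
      have h1 : max t 0 ≤ |t| := max_le (le_abs_self _) (abs_nonneg _)
      calc (max t 0) ^ 2 / (1 + max t 0) ≤ (max t 0) ^ 2 / 1 := by
            apply div_le_div_of_nonneg_left (by positivity) (by norm_num) (by linarith)
        _ ≤ |t| ^ 2 := by rw [div_one]; exact pow_le_pow_left₀ h0 h1 2
    have h2 : (fun h : ℝ => H (0 + h) - H 0 - h • (0:ℝ)) = fun h => H h := by
      funext h
      rw [H_neg le_rfl]; simp
    rw [h2]
    have h3 : (fun h : ℝ => H h) =O[𝓝 0] fun h => h ^ 2 := by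
      apply Asymptotics.IsBigO.of_bound 1
      filter_upwards with t
      rw [Real.norm_eq_abs, Real.norm_eq_abs, one_mul, abs_pow]
      exact hb t
    refine h3.trans_isLittleO ?_
    have := Asymptotics.isLittleO_pow_id (𝕜 := ℝ) (n := 2) (by norm_num)
    exact this
  · have h1 : H =ᶠ[𝓝 s] fun t => t ^ 2 / (1 + t) := by
      filter_upwards [Ioi_mem_nhds hs] with t ht
      unfold H
      rw [max_eq_left (le_of_lt ht)]
    have h2 : H' s = 1 - 1 / (1 + s) ^ 2 := by
      unfold H'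
      rw [max_eq_left hs.le]
    rw [h2]
    exact (hpos s hs).congr_of_eventuallyEq h1

lemma H'_cont : Continuous H' := by
  unfold H'
  refine continuous_const.sub (continuous_const.div ?_ ?_)
  · fun_prop
  · intro s
    have : 0 ≤ max s 0 := le_max_right _ _
    positivity

lemma H_contDiff : ContDiff ℝ 1 H := by
  rw [contDiff_one_iff_deriv]
  refine ⟨fun s => (H_hasDerivAt s).differentiableAt, ?_⟩
  have : deriv H = H' := funext fun s => (H_hasDerivAt s).deriv
  rw [this]
  exact H'_cont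

lemma H'_nonneg (s : ℝ) : 0 ≤ H' s := by
  unfold H'
  have : 0 ≤ max s 0 := le_max_right _ _
  have h2 : (1:ℝ) ≤ (1 + max s 0) ^ 2 := by nlinarith
  have h3 : 1 / (1 + max s 0) ^ 2 ≤ 1 := by
    rw [div_le_one (by positivity)]; exact h2
  linarith

lemma H'_le (s : ℝ) : H' s ≤ 1 := by
  unfold H'
  have : 0 ≤ 1 / (1 + max s 0) ^ 2 := by
    have : 0 ≤ max s 0 := le_max_right _ _
    positivity
  linarith

lemma H_le (s : ℝ) : H s ≤ max s 0 := by
  unfold H
  have h0 : 0 ≤ max s 0 := le_max_right _ _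
  rw [div_le_iff₀ (by positivity)]
  nlinarith

lemma H_pos_iff {s : ℝ} : 0 < H s ↔ 0 < s := by
  constructor
  · intro h
    by_contra hs
    push Not at hs
    rw [H_neg hs] at h
    exact lt_irrefl _ h
  · intro h
    unfold H
    rw [max_eq_left h.le]
    positivity

theorem T_CUT : S_CUT := by
  intro ϕ hϕ B hB hBb z hz hfr
  have hOc : IsClosed (Oc ϕ) := isClosed_le (hϕ.comp continuous_fst) continuous_snd
  set K : Set (ℝ × ℝ) := closure B ∩ Oc ϕ ∩ {p | 0 ≤ z p} with hK
  have hKc : IsCompact K := by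
    have h1 : IsCompact (closure B) := hBb.isCompact_closure
    exact (h1.inter_right hOc).inter_right (isClosed_le continuous_const hz.continuous)
  have hKB : K ⊆ B := by
    rintro p ⟨⟨h1, h2⟩, h3⟩
    by_contra hp
    have h4 : p ∈ frontier B := by
      rw [hB.frontier_eq]; exact ⟨h1, hp⟩
    have h5 := hfr p ⟨h4, h2⟩
    have h6 : 0 ≤ z p := h3
    linarith
  obtain ⟨K₁, hK₁c, hKK₁, hK₁B⟩ := exists_compact_between hKc hB hKB
  -- smooth cut-off: 1 near K, support in B
  obtain ⟨K₂, hK₂c, hK₁K₂, hK₂B⟩ := exists_compact_between hK₁c hB hK₁B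
  obtain ⟨χ, hχ1, hχ0, hχr⟩ := exists_contMDiffMap_zero_one_of_isClosed (n := ⊤)
    (𝓘(ℝ, ℝ × ℝ)) (s := (interior K₂)ᶜ) (t := K₁) isOpen_interior.isClosed_compl hK₁c.isClosed
    (by
      rw [Set.disjoint_left]
      intro p hp hp1
      exact hp (hK₁K₂ hp1))
  have hχs : ContDiff ℝ 1 (χ : ℝ × ℝ → ℝ) := by
    have := χ.contMDiff.contDiff
    exact this.of_le (by exact_mod_cast le_top)
  have hχon : ∀ p ∈ K₁, χ p = 1 := fun p hp => hχ0 hp
  have hχoff : ∀ p ∉ interior K₂, χ p = 0 := fun p hp => hχ1 hp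
  have hts : tsupport (χ : ℝ × ℝ → ℝ) ⊆ K₂ := by
    apply closure_minimal _ hK₂c.isClosed
    intro p hp
    by_contra hq
    exact hp (hχoff p (fun h => hq (interior_subset h)))
  set ψ : ℝ × ℝ → ℝ := fun p => χ p * H (z p) with hψ
  have hHz : ContDiff ℝ 1 (fun p => H (z p)) := H_contDiff.comp hz
  have hψs : tsupport ψ ⊆ K₂ := by
    refine (closure_mono ?_).trans hts
    intro p hp hq
    exact hp (by simp only [hψ]; rw [hq, zero_mul])
  refine ⟨ψ, hχs.mul hHz, HasCompactSupport.of_support_subset_isCompact hK₂c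
    (subset_closure.trans hψs), ?_, hψs.trans hK₂B, ?_, ?_⟩
  · intro p
    exact mul_nonneg (hχr p).1 (H_nonneg _)
  · rintro p ⟨h1, h2⟩
    simp only [hψ]
    by_cases hzp : 0 ≤ z p
    · have h3 : p ∈ K := ⟨⟨subset_closure h2, h1⟩, hzp⟩
      rw [hχon p (interior_subset (hKK₁ h3)), one_mul]
    · rw [H_neg (by linarith), mul_zero]
  · rintro p ⟨h1, h2⟩
    have hd : HasFDerivAt (fun p => H (z p)) (H' (z p) • fderiv ℝ z p) p :=
      (H_hasDerivAt (z p)).comp_hasFDerivAt p
        (hz.differentiable (by norm_num)).differentiableAt.hasFDerivAt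
    by_cases hzp : 0 ≤ z p
    · have h1' : ϕ p.1 < p.2 := h1
      have h3 : p ∈ K := ⟨⟨subset_closure h2, h1'.le⟩, hzp⟩
      have h4 : ψ =ᶠ[𝓝 p] fun p => H (z p) := by
        filter_upwards [isOpen_interior.mem_nhds (hKK₁ h3)] with q hq
        simp only [hψ]
        rw [hχon q (interior_subset hq), one_mul]
      rw [h4.fderiv_eq]
      exact hd.fderiv
    · push Not at hzp
      have h4 : ψ =ᶠ[𝓝 p] fun _ => 0 := by
        filter_upwards [hz.continuous.continuousAt.eventually (gt_mem_nhds hzp)] with q hq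
        simp only [hψ]
        rw [H_neg (le_of_lt hq), mul_zero]
      rw [h4.fderiv_eq, H'_neg hzp.le, zero_smul]
      exact (hasFDerivAt_const (0:ℝ) p).fderiv

end Pool.Agent.W98.RB
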