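import Mathlib
import Pool.Agent.W98.RB.Defs
import Pool.Agent.H314.Robin.R16

/-!
# Transfer of the starting solutions (dimension two) to functions on `ℝ × ℝ`
-/

set_option autoImplicit false

open MeasureTheory Set Filter Topology
open scoped ENNReal NNReal

namespace Pool.Agent.W98.RB.Tr

open Pool.Agent.H314.Robin (Pt epi pd surf floorFn wellProfile HasGradTrace IsPosBddSol)

/-- `(x, y) ↦ ((x), y)` -/
noncomputable def J : ℝ × ℝ →L[ℝ] Pt 0 :=
  (ContinuousLinearMap.pi fun _ => ContinuousLinearMap.fst ℝ ℝ ℝ).prod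
    (ContinuousLinearMap.snd ℝ ℝ ℝ)

/-- its inverse -/
noncomputable def J' : Pt 0 →L[ℝ] ℝ × ℝ :=
  ((ContinuousLinearMap.proj 0).comp (ContinuousLinearMap.fst ℝ _ _)).prod
    (ContinuousLinearMap.snd ℝ _ _)

@[simp] lemma J_apply (p : ℝ × ℝ) : J p = (fun _ => p.1, p.2) := rfl
@[simp] lemma J'_apply (z : Pt 0) : J' z = (z.1 0, z.2) := rfl

lemma J_J' (z : Pt 0) : J (J' z) = z := by
  ext i
  · have : i = 0 := Fin.ext (by have h := i.2; simp only [Fin.val_zero]; omega)
    subst this; rfl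
  · rfl

lemma J'_J (p : ℝ × ℝ) : J' (J p) = p := rfl

lemma mp_const : MeasurePreserving (fun x : ℝ => (fun _ : Fin 1 => x)) volume volume := by
  have h := (volume_preserving_funUnique (Fin 1) ℝ).symm
  exact h

lemma mp_J : MeasurePreserving (fun p : ℝ × ℝ => J p) volume volume := by
  have h := mp_const.prod (MeasurePreserving.id (volume : Measure ℝ))
  exact h

lemma me_J : MeasurableEmbedding (fun p : ℝ × ℝ => J p) := by
  refine MeasurableEmbedding.of_measurable_inverse (g := fun z => J' z) J.continuous.measurable ?_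
    J'.continuous.measurable J'_J
  have : range (fun p : ℝ × ℝ => J p) = univ := by
    rw [eq_univ_iff_forall]; intro z; exact ⟨J' z, J_J' z⟩
  rw [this]; exact MeasurableSet.univ

lemma me_const : MeasurableEmbedding (fun x : ℝ => (fun _ : Fin 1 => x)) :=
  (MeasurableEquiv.funUnique (Fin 1) ℝ).symm.measurableEmbedding

lemma pre_ball (R : ℝ) : (fun p : ℝ × ℝ => J p) ⁻¹' Metric.ball 0 R = Metric.ball 0 R := by
  ext p
  simp only [mem_preimage, mem_ball_zero_iff, J_apply, Prod.norm_def]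
  rw [pi_norm_const]

lemma pre_ball1 (R : ℝ) :
    (fun x : ℝ => (fun _ : Fin 1 => x)) ⁻¹' Metric.ball 0 R = Metric.ball 0 R := by
  ext p
  simp only [mem_preimage, mem_ball_zero_iff]
  rw [pi_norm_const]

lemma prof_eq (H₀ L w : ℝ) : prof H₀ L w = wellProfile H₀ L w := rfl

lemma pre_epi (H₀ L w : ℝ) :
    (fun p : ℝ × ℝ => J p) ⁻¹' epi (floorFn H₀ L w) = Om (prof H₀ L w) := rfl

lemma fderiv_comp_J {v : Pt 0 → ℝ} (hv : ContDiff ℝ 1 v) (p : ℝ × ℝ) :
    fderiv ℝ (fun q => v (J q)) p = (fderiv ℝ v (J p)).comp J := by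
  have h1 : HasFDerivAt v (fderiv ℝ v (J p)) (J p) :=
    (hv.differentiable (by norm_num)).differentiableAt.hasFDerivAt
  exact (h1.comp p J.hasFDerivAt).fderiv

lemma single_eq : (Pi.single (0 : Fin 1) (1 : ℝ) : Fin 1 → ℝ) = fun _ => 1 := by
  funext i
  have : i = 0 := Subsingleton.elim _ _
  subst this; simp

lemma dx_comp_J {v : Pt 0 → ℝ} (hv : ContDiff ℝ 1 v) (p : ℝ × ℝ) :
    dx (fun q => v (J q)) p = pd v (some 0) (J p) := by
  unfold dx pd
  rw [fderiv_comp_J hv, ContinuousLinearMap.comp_apply]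
  congr 1
  rw [J_apply]
  show _ = ((Pi.single 0 1, 0) : Pt 0)
  rw [single_eq]

lemma dy_comp_J {v : Pt 0 → ℝ} (hv : ContDiff ℝ 1 v) (p : ℝ × ℝ) :
    dy (fun q => v (J q)) p = pd v none (J p) := by
  unfold dy pd
  rw [fderiv_comp_J hv, ContinuousLinearMap.comp_apply]
  congr 1

lemma contDiff_comp_J {v : Pt 0 → ℝ} {m : WithTop ℕ∞} (hv : ContDiff ℝ m v) :
    ContDiff ℝ m (fun q => v (J q)) := hv.comp J.contDiff

lemma eLpNorm_J {h : Pt 0 → ℝ} (hh : Measurable h) (S : Set (Pt 0)) :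
    eLpNorm (fun p => h (J p)) 2 (volume.restrict ((fun p : ℝ × ℝ => J p) ⁻¹' S))
      = eLpNorm h 2 (volume.restrict S) := by
  have h1 : MeasurePreserving (fun p : ℝ × ℝ => J p)
      (volume.restrict ((fun p : ℝ × ℝ => J p) ⁻¹' S)) (volume.restrict S) :=
    mp_J.restrict_preimage_emb me_J S
  exact eLpNorm_comp_measurePreserving hh.aestronglyMeasurable h1

lemma eLpNorm_c {h : (Fin 1 → ℝ) → ℝ} (hh : Measurable h) (S : Set (Fin 1 → ℝ)) :
    eLpNorm (fun x => h (fun _ => x)) 2
      (volume.restrict ((fun x : ℝ => (fun _ : Fin 1 => x)) ⁻¹' S))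
      = eLpNorm h 2 (volume.restrict S) := by
  have h1 : MeasurePreserving (fun x : ℝ => (fun _ : Fin 1 => x))
      (volume.restrict ((fun x : ℝ => (fun _ : Fin 1 => x)) ⁻¹' S)) (volume.restrict S) :=
    mp_const.restrict_preimage_emb me_const S
  exact eLpNorm_comp_measurePreserving hh.aestronglyMeasurable h1

lemma pd_meas {v : Pt 0 → ℝ} (hv : ContDiff ℝ 1 v) (i : Option (Fin 1)) :
    Measurable (pd v i) := by
  have : Continuous (pd v i) := by
    unfold pd
    exact (hv.continuous_fderiv (by norm_num)).clm_apply continuous_const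
  exact this.measurable

lemma prof_cont (H₀ L w : ℝ) : Continuous (prof H₀ L w) := by
  unfold prof; fun_prop

lemma floor_cont (H₀ L w : ℝ) : Continuous (floorFn (n := 0) H₀ L w) :=
  (prof_cont H₀ L w).comp (continuous_apply 0)

lemma ap_of (H₀ L w : ℝ) {u : Pt 0 → ℝ} {G : Option (Fin 1) → Pt 0 → ℝ} {T : (Fin 1 → ℝ) → ℝ}
    (h : HasGradTrace (floorFn H₀ L w) u G T) :
    ∃ v : ℕ → ℝ × ℝ → ℝ, Ap (prof H₀ L w) (fun p => u (J p)) (fun p => G (some 0) (J p))
      (fun p => G none (J p)) (fun x => T (fun _ => x)) v := by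
  obtain ⟨v, hv, hc⟩ := h.approx
  refine ⟨fun k p => v k (J p), ⟨h.meas_u.comp J.continuous.measurable,
    (h.meas_G _).comp J.continuous.measurable, (h.meas_G _).comp J.continuous.measurable,
    h.meas_T.comp mp_const.measurable, fun k => contDiff_comp_J (hv k), ?_, ?_, ?_, ?_⟩⟩
  · intro R
    have h1 := (hc R).1
    convert h1 using 2 with k
    rw [← pre_epi, ← pre_ball, ← preimage_inter]
    exact eLpNorm_J (h := fun z => v k z - u z) ((hv k).continuous.measurable.sub h.meas_u) _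
  · intro R
    have h1 := (hc R).2.1 (some 0)
    convert h1 using 2 with k
    rw [← pre_epi, ← pre_ball, ← preimage_inter]
    simp only [dx_comp_J (hv k)]
    exact eLpNorm_J (h := fun z => pd (v k) (some 0) z - G (some 0) z)
      ((pd_meas (hv k) _).sub (h.meas_G _)) _
  · intro R
    have h1 := (hc R).2.1 none
    convert h1 using 2 with k
    rw [← pre_epi, ← pre_ball, ← preimage_inter]
    simp only [dy_comp_J (hv k)]
    exact eLpNorm_J (h := fun z => pd (v k) none z - G none z)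
      ((pd_meas (hv k) _).sub (h.meas_G _)) _
  · intro R
    have h1 := (hc R).2.2
    convert h1 using 2 with k
    rw [← pre_ball1]
    exact eLpNorm_c (h := fun x => v k (x, floorFn H₀ L w x) - T x)
      (((hv k).continuous.comp (continuous_id.prodMk (floor_cont H₀ L w))).measurable.sub
        h.meas_T) _

/-- the surface element a.e. -/
lemma surf_ae {H₀ L w : ℝ} (hH : 0 < H₀) (hL : 0 < L) (hw : H₀ / L < w) :
    ∀ᵐ x : ℝ, surf (floorFn (n := 0) H₀ L w) (fun _ => x) = surfp H₀ L w x := by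
  have h1 := mp_const.quasiMeasurePreserving.ae
    (Pool.Agent.H314.Robin.surf_eq (n := 0) hH hL hw)
  filter_upwards [h1] with x hx
  rw [hx]
  unfold Pool.Agent.H314.Robin.slope surfp
  split_ifs <;> simp

lemma weak_of {H₀ L w α : ℝ} (hH : 0 < H₀) (hL : 0 < L) (hw : H₀ / L < w) {f : ℝ → ℝ}
    {u : Pt 0 → ℝ} {G : Option (Fin 1) → Pt 0 → ℝ} {T : (Fin 1 → ℝ) → ℝ}
    (h : ∀ φ : Pt 0 → ℝ, ContDiff ℝ 1 φ → HasCompactSupport φ →
      (∫ z in epi (floorFn H₀ L w), ∑ i, G i z * pd φ i z)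
        + α⁻¹ * ∫ x, T x * φ (x, floorFn H₀ L w x) * surf (floorFn H₀ L w) x
        = ∫ z in epi (floorFn H₀ L w), f (u z) * φ z) :
    Weak (prof H₀ L w) α (surfp H₀ L w) (fun p => G (some 0) (J p)) (fun p => G none (J p))
      (fun x => T (fun _ => x)) (fun p => f (u (J p))) := by
  intro ψ hψ hψc
  set φ : Pt 0 → ℝ := fun z => ψ (J' z) with hφ
  have hφ1 : ContDiff ℝ 1 φ := hψ.comp J'.contDiff
  have hφc : HasCompactSupport φ := by
    have hh : Topology.IsClosedEmbedding (fun z : Pt 0 => J' z) := by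
      have := Homeomorph.isClosedEmbedding (Homeomorph.mk ⟨fun z => J' z, fun p => J p, J_J', J'_J⟩
          J'.continuous J.continuous : (Pt 0) ≃ₜ ℝ × ℝ)
      exact this
    exact hψc.comp_isClosedEmbedding hh
  have e1 : ∀ p, φ (J p) = ψ p := fun p => rfl
  have e2 : (fun q => φ (J q)) = ψ := rfl
  have key := h φ hφ1 hφc
  have i1 : ∫ z in epi (floorFn H₀ L w), ∑ i, G i z * pd φ i z
      = ∫ p in Om (prof H₀ L w), (G (some 0) (J p) * dx ψ p + G none (J p) * dy ψ p) := by
    rw [← pre_epi, ← mp_J.setIntegral_preimage_emb me_J]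
    apply integral_congr_ae
    filter_upwards with p
    rw [Fintype.sum_option]
    have : ∑ i : Fin (0 + 1), G (some i) (J p) * pd φ (some i) (J p)
        = G (some 0) (J p) * pd φ (some 0) (J p) := by
      simp
    rw [this, ← dx_comp_J hφ1, ← dy_comp_J hφ1, e2]
    ring
  have i2 : ∫ x, T x * φ (x, floorFn H₀ L w x) * surf (floorFn H₀ L w) x
      = ∫ x : ℝ, T (fun _ => x) * ψ (x, prof H₀ L w x) * surfp H₀ L w x := by
    rw [← mp_const.integral_comp me_const]
    apply integral_congr_ae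
    filter_upwards [surf_ae hH hL hw] with x hx
    rw [hx]
    rfl
  have i3 : ∫ z in epi (floorFn H₀ L w), f (u z) * φ z
      = ∫ p in Om (prof H₀ L w), f (u (J p)) * ψ p := by
    rw [← pre_epi, ← mp_J.setIntegral_preimage_emb me_J]
    rfl
  rw [← i1, ← i2, ← i3]
  exact key

end Pool.Agent.W98.RB.Tr
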