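import Mathlib
import Pool.Agent.W98.RB.Defs

/-!
# Transfer from `ℝ × ℝ` to the Euclidean plane
-/

set_option autoImplicit false

open MeasureTheory Set Filter Topology
open scoped ENNReal NNReal

namespace Pool.Agent.W98.RB

/-- a classical solution in the plane -/
structure Good (ϕ : ℝ → ℝ) (α : ℝ) (σ : ℝ → ℝ) (f : ℝ → ℝ) (U : ℝ × ℝ → ℝ) : Prop where
  c1 : ContDiffOn ℝ 1 U (Om ϕ)
  cc : ContinuousOn U (Oc ϕ)
  pos : ∀ p ∈ Om ϕ, 0 < U p ∧ U p ≤ 1
  int : ∀ R : ℝ, IntegrableOn (fun p => dx U p ^ 2 + dy U p ^ 2) (Om ϕ ∩ Metric.ball 0 R)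
  wk : ∀ ψ : ℝ × ℝ → ℝ, ContDiff ℝ 1 ψ → HasCompactSupport ψ →
    (∫ p in Om ϕ, (dx U p * dx ψ p + dy U p * dy ψ p))
      + α⁻¹ * ∫ x, U (x, ϕ x) * ψ (x, ϕ x) * σ x = ∫ p in Om ϕ, f (U p) * ψ p

namespace T2

abbrev E := EuclideanSpace ℝ (Fin 2)

/-- coordinates -/
noncomputable def Q : E →L[ℝ] ℝ × ℝ :=
  (EuclideanSpace.proj (0 : Fin 2)).prod (EuclideanSpace.proj (1 : Fin 2))

@[simp] lemma Q_apply (x : E) : Q x = (x 0, x 1) := rfl

/-- the inverse -/
noncomputable def Q' (p : ℝ × ℝ) : E := pt p.1 p.2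

@[simp] lemma Q'_zero (p : ℝ × ℝ) : Q' p 0 = p.1 := by simp [Q', pt]
@[simp] lemma Q'_one (p : ℝ × ℝ) : Q' p 1 = p.2 := by simp [Q', pt]

lemma Q_Q' (p : ℝ × ℝ) : Q (Q' p) = p := by simp

lemma Q'_Q (x : E) : Q' (Q x) = x := by
  ext i
  fin_cases i <;> simp

/-- the inverse as a continuous linear map -/
noncomputable def QL : ℝ × ℝ →L[ℝ] E :=
  (ContinuousLinearMap.fst ℝ ℝ ℝ).smulRight (EuclideanSpace.single (0 : Fin 2) (1 : ℝ)) +
    (ContinuousLinearMap.snd ℝ ℝ ℝ).smulRight (EuclideanSpace.single (1 : Fin 2) (1 : ℝ))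

lemma QL_apply (p : ℝ × ℝ) : QL p = Q' p := by
  ext i
  fin_cases i <;> simp [QL]

lemma mp_Q : MeasurePreserving (fun x : E => Q x) volume volume := by
  have h1 := EuclideanSpace.volume_preserving_symm_measurableEquiv_toLp (Fin 2)
  have h2 := volume_preserving_finTwoArrow ℝ
  exact h2.comp h1

lemma me_Q : MeasurableEmbedding (fun x : E => Q x) := by
  refine MeasurableEmbedding.of_measurable_inverse (g := Q') Q.continuous.measurable ?_
    ?_ Q'_Q
  · have : range (fun x : E => Q x) = univ := by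
      rw [eq_univ_iff_forall]; intro z; exact ⟨Q' z, Q_Q' z⟩
    rw [this]; exact MeasurableSet.univ
  · have : Q' = fun p => QL p := by funext p; rw [QL_apply]
    rw [this]; exact QL.continuous.measurable

lemma contDiff_Q' {m : WithTop ℕ∞} : ContDiff ℝ m Q' := by
  have : Q' = fun p => QL p := by funext p; rw [QL_apply]
  rw [this]; exact QL.contDiff

variable {ϕ : ℝ → ℝ}

lemma isOpen_Om (hϕ : Continuous ϕ) : IsOpen (Om ϕ) :=
  isOpen_lt (hϕ.comp continuous_fst) continuous_snd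

lemma isClosed_Oc (hϕ : Continuous ϕ) : IsClosed (Oc ϕ) :=
  isClosed_le (hϕ.comp continuous_fst) continuous_snd

/-- the epigraph in the Euclidean plane -/
def OmE (ϕ : ℝ → ℝ) : Set E := {x | ϕ (x 0) < x 1}

lemma OmE_eq (ϕ : ℝ → ℝ) : OmE ϕ = (fun x : E => Q x) ⁻¹' Om ϕ := rfl

lemma isOpen_OmE (hϕ : Continuous ϕ) : IsOpen (OmE ϕ) :=
  (isOpen_Om hϕ).preimage Q.continuous

lemma closure_sub (hϕ : Continuous ϕ) : closure (OmE ϕ) ⊆ (fun x : E => Q x) ⁻¹' Oc ϕ := by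
  apply closure_minimal
  · intro x hx
    have h : ϕ (x 0) < x 1 := hx
    exact h.le
  · exact (isClosed_Oc hϕ).preimage Q.continuous

lemma pt_mem_closure (ϕ : ℝ → ℝ) (x : ℝ) : pt x (ϕ x) ∈ closure (OmE ϕ) := by
  have h1 : Tendsto (fun t : ℝ => Q' (x, ϕ x + t)) (𝓝[>] 0) (𝓝 (pt x (ϕ x))) := by
    have h2 : Continuous (fun t : ℝ => Q' (x, ϕ x + t)) := by
      have h3 : Continuous Q' := (contDiff_Q' (m := 0)).continuous
      exact h3.comp (by fun_prop)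
    have h4 := h2.tendsto 0
    simp only [add_zero] at h4
    exact h4.mono_left nhdsWithin_le_nhds
  refine mem_closure_of_tendsto h1 ?_
  filter_upwards [self_mem_nhdsWithin] with t ht
  show ϕ (Q' (x, ϕ x + t) 0) < Q' (x, ϕ x + t) 1
  simp only [Q'_zero, Q'_one]
  have : (0:ℝ) < t := ht
  linarith

lemma frontier_OmE (hϕ : Continuous ϕ) :
    frontier (OmE ϕ) = range (fun x => pt x (ϕ x)) := by
  rw [(isOpen_OmE hϕ).frontier_eq]
  ext z
  constructor
  · rintro ⟨h1, h2⟩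
    have h3 : ϕ (z 0) ≤ z 1 := closure_sub hϕ h1
    have h4 : ¬ ϕ (z 0) < z 1 := h2
    have h5 : ϕ (z 0) = z 1 := le_antisymm h3 (not_lt.mp h4)
    refine ⟨z 0, ?_⟩
    show pt (z 0) (ϕ (z 0)) = z
    rw [h5]
    exact Q'_Q z
  · rintro ⟨x, rfl⟩
    refine ⟨pt_mem_closure ϕ x, ?_⟩
    intro h
    have h6 : ϕ (Q' (x, ϕ x) 0) < Q' (x, ϕ x) 1 := h
    simp at h6

lemma fderiv_comp_Q {U : ℝ × ℝ → ℝ} {x : E} (hU : DifferentiableAt ℝ U (Q x)) :
    fderiv ℝ (fun y : E => U (Q y)) x = (fderiv ℝ U (Q x)).comp Q :=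
  (hU.hasFDerivAt.comp x Q.hasFDerivAt).fderiv

lemma inner_grad {f g : E → ℝ} (x : E) :
    inner ℝ (gradient f x) (gradient g x)
      = fderiv ℝ f x (EuclideanSpace.single 0 1) * fderiv ℝ g x (EuclideanSpace.single 0 1)
        + fderiv ℝ f x (EuclideanSpace.single 1 1) * fderiv ℝ g x (EuclideanSpace.single 1 1) := by
  have hc : ∀ (h : E → ℝ) (i : Fin 2), (gradient h x) i
      = fderiv ℝ h x (EuclideanSpace.single i 1) := by
    intro h i
    rw [← inner_gradient_left, EuclideanSpace.inner_single_right]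
    simp
  rw [PiLp.inner_apply, Fin.sum_univ_two]
  simp only [hc]
  simp only [RCLike.inner_apply, conj_trivial]
  ring

lemma Q_single0 : Q (EuclideanSpace.single (0 : Fin 2) (1 : ℝ)) = (1, 0) := by
  simp
lemma Q_single1 : Q (EuclideanSpace.single (1 : Fin 2) (1 : ℝ)) = (0, 1) := by
  simp

lemma inner_grad_Q {U ψ : ℝ × ℝ → ℝ} {x : E} (hU : DifferentiableAt ℝ U (Q x))
    (hψ : DifferentiableAt ℝ ψ (Q x)) :
    inner ℝ (gradient (fun y : E => U (Q y)) x) (gradient (fun y : E => ψ (Q y)) x)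
      = dx U (Q x) * dx ψ (Q x) + dy U (Q x) * dy ψ (Q x) := by
  rw [inner_grad, fderiv_comp_Q hU, fderiv_comp_Q hψ]
  simp only [ContinuousLinearMap.comp_apply, Q_single0, Q_single1]
  rfl

lemma norm_grad_Q {U : ℝ × ℝ → ℝ} {x : E} (hU : DifferentiableAt ℝ U (Q x)) :
    ‖gradient (fun y : E => U (Q y)) x‖ ^ 2 = dx U (Q x) ^ 2 + dy U (Q x) ^ 2 := by
  rw [← real_inner_self_eq_norm_sq, inner_grad_Q hU hU]
  ring

lemma setIntegral_Q {h : ℝ × ℝ → ℝ} (S : Set (ℝ × ℝ)) :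
    ∫ x in (fun x : E => Q x) ⁻¹' S, h (Q x) = ∫ p in S, h p :=
  mp_Q.setIntegral_preimage_emb me_Q h S

lemma ball_sub (R : ℝ) : Metric.ball (0 : E) R ⊆ (fun x : E => Q x) ⁻¹' Metric.ball 0 R := by
  intro x hx
  simp only [mem_preimage, mem_ball_zero_iff] at hx ⊢
  refine lt_of_le_of_lt ?_ hx
  rw [Q_apply, Prod.norm_def]
  exact max_le (PiLp.norm_apply_le x 0) (PiLp.norm_apply_le x 1)

lemma diff_at (hϕ : Continuous ϕ) {U : ℝ × ℝ → ℝ} (h : ContDiffOn ℝ 1 U (Om ϕ)) {p : ℝ × ℝ}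
    (hp : p ∈ Om ϕ) : DifferentiableAt ℝ U p :=
  ((h.contDiffAt ((isOpen_Om hϕ).mem_nhds hp)).differentiableAt (by norm_num))

/-- the surface integral -/
lemma surf_int (hϕ : Continuous ϕ) {σ : ℝ → ℝ} (hσ : Measurable σ) (hσ0 : ∀ x, 0 ≤ σ x)
    (hH : (Measure.hausdorffMeasure (1 : ℝ) : Measure E).restrict
      (Set.range fun x => pt x (ϕ x))
    = Measure.map (fun x => pt x (ϕ x)) (volume.withDensity fun x => ENNReal.ofReal (σ x)))
    (h : ℝ × ℝ → ℝ) :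
    ∫ x in frontier (OmE ϕ), h (Q x) ∂(Measure.hausdorffMeasure (1 : ℝ))
      = ∫ x, h (x, ϕ x) * σ x := by
  rw [frontier_OmE hϕ, hH]
  have hc : Continuous (fun x => pt x (ϕ x)) := by
    have h3 : Continuous Q' := (contDiff_Q' (m := 0)).continuous
    exact h3.comp (by fun_prop : Continuous fun x : ℝ => (x, ϕ x))
  have hinj : Function.Injective (fun x => pt x (ϕ x)) := by
    intro a b hab
    have h1 : Q (pt a (ϕ a)) = Q (pt b (ϕ b)) := congrArg Q hab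
    have h2 : Q (Q' (a, ϕ a)) = Q (Q' (b, ϕ b)) := h1
    rw [Q_Q', Q_Q'] at h2
    exact congrArg Prod.fst h2
  have hemb : MeasurableEmbedding (fun x => pt x (ϕ x)) := hc.measurableEmbedding hinj
  rw [hemb.integral_map]
  have h1 : ∀ x, h (Q (pt x (ϕ x))) = h (x, ϕ x) := by
    intro x
    have : Q (Q' (x, ϕ x)) = (x, ϕ x) := Q_Q' _
    show h (Q (Q' (x, ϕ x))) = _
    rw [this]
  simp only [h1]
  rw [integral_withDensity_eq_integral_toReal_smul (by fun_prop) (by filter_upwards with x; exact ENNReal.ofReal_lt_top)]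
  apply integral_congr_ae
  filter_upwards with x
  rw [ENNReal.toReal_ofReal (hσ0 x), smul_eq_mul, mul_comm]

/-- the four conditions of the frozen statement -/
theorem conds (hϕ : Continuous ϕ) {α : ℝ} {σ : ℝ → ℝ} (hσ : Measurable σ) (hσ0 : ∀ x, 0 ≤ σ x)
    (hH : (Measure.hausdorffMeasure (1 : ℝ) : Measure E).restrict
      (Set.range fun x => pt x (ϕ x))
    = Measure.map (fun x => pt x (ϕ x)) (volume.withDensity fun x => ENNReal.ofReal (σ x)))
    {f : ℝ → ℝ} {U : ℝ × ℝ → ℝ} (hU : Good ϕ α σ f U) :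
    ContDiffOn ℝ 1 (fun x : E => U (Q x)) (OmE ϕ) ∧
    ContinuousOn (fun x : E => U (Q x)) (closure (OmE ϕ)) ∧
    (∀ x ∈ OmE ϕ, 0 < U (Q x) ∧ U (Q x) ≤ 1) ∧
    (∀ R : ℝ, IntegrableOn (fun x => ‖gradient (fun x : E => U (Q x)) x‖ ^ 2)
      (OmE ϕ ∩ Metric.ball 0 R)) ∧
    (∀ ψ : E → ℝ, ContDiff ℝ 1 ψ → HasCompactSupport ψ →
      (∫ x in OmE ϕ, inner ℝ (gradient (fun x : E => U (Q x)) x) (gradient ψ x))
        + (1/α) * (∫ x in frontier (OmE ϕ), U (Q x) * ψ x ∂(Measure.hausdorffMeasure (1:ℝ)))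
        = ∫ x in OmE ϕ, f (U (Q x)) * ψ x) := by
  have hmO : MeasurableSet (OmE ϕ) := (isOpen_OmE hϕ).measurableSet
  refine ⟨?_, ?_, ?_, ?_, ?_⟩
  · exact hU.c1.comp Q.contDiff.contDiffOn (fun x hx => hx)
  · exact hU.cc.comp Q.continuous.continuousOn (closure_sub hϕ)
  · intro x hx; exact hU.pos (Q x) hx
  · intro R
    have h1 := hU.int R
    have h2 : IntegrableOn (fun x : E => dx U (Q x) ^ 2 + dy U (Q x) ^ 2)
        ((fun x : E => Q x) ⁻¹' (Om ϕ ∩ Metric.ball 0 R)) := by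
      have := (mp_Q.integrableOn_comp_preimage me_Q (f := fun p => dx U p ^ 2 + dy U p ^ 2)
        (s := Om ϕ ∩ Metric.ball 0 R)).mpr h1
      exact this
    have h3 := h2.mono_set (inter_subset_inter_right (OmE ϕ) (ball_sub R))
    refine h3.congr_fun ?_ (hmO.inter measurableSet_ball)
    intro x hx
    exact (norm_grad_Q (diff_at hϕ hU.c1 hx.1)).symm
  · intro ψ hψ hψc
    set ψ' : ℝ × ℝ → ℝ := fun p => ψ (Q' p) with hψ'
    have e1 : ∀ x : E, ψ x = ψ' (Q x) := fun x => by simp only [hψ']; rw [Q'_Q]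
    have hψ1 : ContDiff ℝ 1 ψ' := hψ.comp contDiff_Q'
    have hψ2 : HasCompactSupport ψ' := by
      have hh : Topology.IsClosedEmbedding (fun p => Q' p) := by
        have hh2 : Q' = ((Homeomorph.mk ⟨Q', fun x => Q x, Q_Q', Q'_Q⟩
          (contDiff_Q' (m := 0)).continuous Q.continuous : (ℝ × ℝ) ≃ₜ E) : ℝ × ℝ → E) := rfl
        have hh3 : (fun p => Q' p) = Q' := rfl
        rw [hh3, hh2]
        exact Homeomorph.isClosedEmbedding _
      exact hψc.comp_isClosedEmbedding hh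
    have hw := hU.wk ψ' hψ1 hψ2
    have hψe : ψ = fun x : E => ψ' (Q x) := funext e1
    rw [one_div]
    have i1 : ∫ x in OmE ϕ, inner ℝ (gradient (fun x : E => U (Q x)) x) (gradient ψ x)
        = ∫ p in Om ϕ, (dx U p * dx ψ' p + dy U p * dy ψ' p) := by
      rw [← setIntegral_Q (h := fun p => dx U p * dx ψ' p + dy U p * dy ψ' p) (Om ϕ), ← OmE_eq]
      apply setIntegral_congr_fun hmO
      intro x hx
      show inner ℝ (gradient (fun x : E => U (Q x)) x) (gradient ψ x) = _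
      rw [hψe]
      exact inner_grad_Q (diff_at hϕ hU.c1 hx) (hψ1.differentiable (by norm_num)).differentiableAt
    have i2 : ∫ x in frontier (OmE ϕ), U (Q x) * ψ x ∂(Measure.hausdorffMeasure (1:ℝ))
        = ∫ x, U (x, ϕ x) * ψ' (x, ϕ x) * σ x := by
      rw [← surf_int hϕ hσ hσ0 hH (fun p => U p * ψ' p)]
      simp only [e1]
    have i3 : ∫ x in OmE ϕ, f (U (Q x)) * ψ x = ∫ p in Om ϕ, f (U p) * ψ' p := by
      rw [← setIntegral_Q (h := fun p => f (U p) * ψ' p) (Om ϕ), ← OmE_eq]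
      simp only [e1]
    rw [i1, i2, i3]
    exact hw

end T2

end Pool.Agent.W98.RB
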