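import Mathlib
import Pool.Agent.W98.RB.Trans1
import Pool.Agent.W98.RB.Trans2
import Pool.Agent.Results.MP_1dc5fb_an.TwoSolutions

/-!
# Assembly
-/

set_option autoImplicit false

open MeasureTheory Set Filter Topology
open scoped ENNReal NNReal

namespace Pool.Agent.W98.RB.Fin

open Pool.Agent.H314.Robin

/-- the domain -/
noncomputable abbrev ph : ℝ → ℝ := prof Real.pi cL cw

/-- Lipschitz constant -/
noncomputable abbrev KK : ℝ≥0 := ⟨cL, cL_pos.le⟩

/-- a classical solution from a weak one -/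
theorem good_of (hWL : S_WL) (hMOL : S_MOL) (hC1 : S_C1) (hID : S_ID) (hCONT : S_CONT)
    (hTR : S_TR) {f : ℝ → ℝ} (hf : Continuous f) {ϕ : ℝ → ℝ} {K : ℝ≥0} {α : ℝ} {σ : ℝ → ℝ}
    {S F : ℝ} {u Gx Gy : ℝ × ℝ → ℝ} {T : ℝ → ℝ} {v : ℕ → ℝ × ℝ → ℝ}
    (h : Sol ϕ K α σ S F u Gx Gy T (fun p => f (u p)) v) {m : ℝ} (hm : 0 < m)
    (hum : ∀ p, m ≤ u p) :
    ∃ U : ℝ × ℝ → ℝ, Good ϕ α σ f U ∧ (∀ᵐ p ∂(volume.restrict (Om ϕ)), U p = u p) := by
  have hϕ : Continuous ϕ := h.lip.continuous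
  have hO : IsOpen (Om ϕ) := T2.isOpen_Om hϕ
  have hOm : MeasurableSet (Om ϕ) := hO.measurableSet
  have hwl := hWL ϕ K α σ S F u Gx Gy T (fun p => f (u p)) v h
  obtain ⟨U, hU1, hU2⟩ := hC1 (Om ϕ) hO u 1 F (hMOL (Om ϕ) hO u (fun p => f (u p)) h.ap.mu h.mg
    1 F (fun p hp => by rw [abs_le]; exact ⟨by linarith [h.u0 p hp], h.u1 p hp⟩)
    (fun p hp => by rw [abs_le]; exact ⟨by linarith [h.g0 p hp, h.gF p hp], h.gF p hp⟩)
    (fun η h1 h2 h3 => (hwl η h1 h2 h3).2.2))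
  -- L2 gradients
  have hL2 : ∀ (G : ℝ × ℝ → ℝ) (D : (ℝ × ℝ → ℝ) → ℝ × ℝ → ℝ), Measurable G →
      (∀ k, Continuous (D (v k))) →
      (∀ R : ℝ, Tendsto (fun k => eLpNorm (fun p => D (v k) p - G p) 2
        (volume.restrict (Om ϕ ∩ Metric.ball 0 R))) atTop (𝓝 0)) →
      ∀ R : ℝ, MemLp G 2 (volume.restrict (Om ϕ ∩ Metric.ball 0 R)) := by
    intro G D hG hD hc R
    obtain ⟨k, hk⟩ := ((hc R).eventually (gt_mem_nhds (show (0:ℝ≥0∞) < 1 by norm_num))).exists
    have h1 : MemLp (fun p => D (v k) p - G p) 2 (volume.restrict (Om ϕ ∩ Metric.ball 0 R)) :=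
      ⟨((hD k).measurable.sub hG).aestronglyMeasurable, hk.trans ENNReal.one_lt_top⟩
    have h2 : MemLp (D (v k)) 2 (volume.restrict (Om ϕ ∩ Metric.ball 0 R)) := by
      obtain ⟨C, hC⟩ := (isCompact_closedBall (0 : ℝ × ℝ) R).exists_bound_of_continuousOn
        (hD k).continuousOn
      have hfin : volume (Om ϕ ∩ Metric.ball (0 : ℝ × ℝ) R) < ⊤ :=
        lt_of_le_of_lt (measure_mono inter_subset_right) measure_ball_lt_top
      haveI : IsFiniteMeasure (volume.restrict (Om ϕ ∩ Metric.ball (0 : ℝ × ℝ) R)) :=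
        ⟨by rw [Measure.restrict_apply_univ]; exact hfin⟩
      refine MemLp.of_bound (hD k).aestronglyMeasurable C ?_
      filter_upwards [ae_restrict_mem (hOm.inter measurableSet_ball)] with p hp
      exact hC p (Metric.ball_subset_closedBall hp.2)
    have h3 := h2.sub h1
    have : (D (v k) - fun p => D (v k) p - G p) = G := by
      funext p; simp
    rwa [this] at h3
  have hdx : ∀ k, Continuous (dx (v k)) := fun k =>
    ((h.ap.c1 k).continuous_fderiv (by norm_num)).clm_apply continuous_const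
  have hdy : ∀ k, Continuous (dy (v k)) := fun k =>
    ((h.ap.c1 k).continuous_fderiv (by norm_num)).clm_apply continuous_const
  have hGx := hL2 Gx dx h.ap.mx hdx h.ap.cx
  have hGy := hL2 Gy dy h.ap.my hdy h.ap.cy
  have hfinm : ∀ R : ℝ, IsFiniteMeasure (volume.restrict (Om ϕ ∩ Metric.ball (0 : ℝ × ℝ) R)) :=
    fun R => ⟨by
      rw [Measure.restrict_apply_univ]
      exact lt_of_le_of_lt (measure_mono inter_subset_right) measure_ball_lt_top⟩
  have hGxi : ∀ R : ℝ, IntegrableOn Gx (Om ϕ ∩ Metric.ball 0 R) := fun R => by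
    haveI := hfinm R
    exact (hGx R).integrable (by norm_num)
  have hGyi : ∀ R : ℝ, IntegrableOn Gy (Om ϕ ∩ Metric.ball 0 R) := fun R => by
    haveI := hfinm R
    exact (hGy R).integrable (by norm_num)
  have hUint : ∀ (φ : ℝ × ℝ → ℝ), ∫ p in Om ϕ, U p * φ p = ∫ p in Om ϕ, u p * φ p := fun φ => by
    apply integral_congr_ae
    filter_upwards [hU2] with p hp
    rw [hp]
  have hidx : ∀ᵐ p ∂(volume.restrict (Om ϕ)), dx U p = Gx p :=
    (hID (Om ϕ) hO U Gx hU1 h.ap.mx hGxi).1 (fun η h1 h2 h3 => by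
      rw [hUint]; exact (hwl η h1 h2 h3).1)
  have hidy : ∀ᵐ p ∂(volume.restrict (Om ϕ)), dy U p = Gy p :=
    (hID (Om ϕ) hO U Gy hU1 h.ap.my hGyi).2 (fun η h1 h2 h3 => by
      rw [hUint]; exact (hwl η h1 h2 h3).2.1)
  have hlim := hCONT ϕ K α σ S F u Gx Gy T (fun p => f (u p)) v h U hU1.continuousOn hU2
  -- extension
  set W : ℝ × ℝ → ℝ := extendFrom (Om ϕ) U with hW
  have hsub : Oc ϕ ⊆ closure (Om ϕ) := by
    rintro ⟨x, y⟩ hp
    have hp' : ϕ x ≤ y := hp
    have h1 : Tendsto (fun t : ℝ => ((x, y + t) : ℝ × ℝ)) (𝓝[>] 0) (𝓝 (x, y)) := by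
      have h2 : Continuous (fun t : ℝ => ((x, y + t) : ℝ × ℝ)) := by fun_prop
      have h4 := h2.tendsto 0
      simp only [add_zero] at h4
      exact h4.mono_left nhdsWithin_le_nhds
    refine mem_closure_of_tendsto h1 ?_
    filter_upwards [self_mem_nhdsWithin] with t ht
    have : (0:ℝ) < t := ht
    show ϕ x < y + t
    linarith
  have hWU : ∀ p ∈ Om ϕ, W p = U p := by
    intro p hp
    apply extendFrom_eq (subset_closure hp)
    exact (hU1.continuousOn p hp)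
  have hWc : ContinuousOn W (Oc ϕ) := by
    apply continuousOn_extendFrom hsub
    rintro ⟨x, y⟩ hp
    have hp' : ϕ x ≤ y := hp
    rcases hp'.lt_or_eq with hlt | heq
    · exact ⟨U (x, y), hU1.continuousOn (x, y) hlt⟩
    · obtain ⟨c, hc⟩ := hlim x
      rw [heq] at hc
      exact ⟨c, hc⟩
  have hW1 : ContDiffOn ℝ 1 W (Om ϕ) := hU1.congr hWU
  have hWu : ∀ᵐ p ∂(volume.restrict (Om ϕ)), W p = u p := by
    filter_upwards [hU2, ae_restrict_mem hOm] with p h1 h2
    rw [hWU p h2, h1]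
  have hdW : ∀ p ∈ Om ϕ, fderiv ℝ W p = fderiv ℝ U p := by
    intro p hp
    apply Filter.EventuallyEq.fderiv_eq
    filter_upwards [hO.mem_nhds hp] with q hq using hWU q hq
  have hdxW : ∀ᵐ p ∂(volume.restrict (Om ϕ)), dx W p = Gx p := by
    filter_upwards [hidx, ae_restrict_mem hOm] with p h1 h2
    rw [← h1]; unfold dx; rw [hdW p h2]
  have hdyW : ∀ᵐ p ∂(volume.restrict (Om ϕ)), dy W p = Gy p := by
    filter_upwards [hidy, ae_restrict_mem hOm] with p h1 h2
    rw [← h1]; unfold dy; rw [hdW p h2]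
  have hT := hTR ϕ hϕ u Gx Gy T v h.ap W hWc hWu
  -- pointwise bounds by continuity
  have hbd : ∀ p ∈ Om ϕ, m ≤ W p ∧ W p ≤ 1 := by
    intro p hp
    have hd : ∀ᵐ q ∂(volume.restrict (Om ϕ)), m ≤ W q ∧ W q ≤ 1 := by
      filter_upwards [hWu, ae_restrict_mem hOm] with q h1 h2
      rw [h1]
      exact ⟨hum q, h.u1 q h2⟩
    constructor
    · by_contra hlt
      push Not at hlt
      have hop : IsOpen (Om ϕ ∩ W ⁻¹' Iio m) :=
        (hW1.continuousOn).isOpen_inter_preimage hO isOpen_Iio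
      have hne : (Om ϕ ∩ W ⁻¹' Iio m).Nonempty := ⟨p, hp, hlt⟩
      have hpos := hop.measure_pos volume hne
      have h0 : volume (Om ϕ ∩ W ⁻¹' Iio m) = 0 := by
        rw [ae_restrict_iff' hOm] at hd
        refine measure_mono_null ?_ hd
        intro q hq hq2
        have h3 := (hq2 hq.1).1
        have h4 : W q < m := hq.2
        linarith
      rw [h0] at hpos
      exact lt_irrefl _ hpos
    · by_contra hlt
      push Not at hlt
      have hop : IsOpen (Om ϕ ∩ W ⁻¹' Ioi 1) :=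
        (hW1.continuousOn).isOpen_inter_preimage hO isOpen_Ioi
      have hne : (Om ϕ ∩ W ⁻¹' Ioi 1).Nonempty := ⟨p, hp, hlt⟩
      have hpos := hop.measure_pos volume hne
      have h0 : volume (Om ϕ ∩ W ⁻¹' Ioi 1) = 0 := by
        rw [ae_restrict_iff' hOm] at hd
        refine measure_mono_null ?_ hd
        intro q hq hq2
        have h3 := (hq2 hq.1).2
        have h4 : 1 < W q := hq.2
        linarith
      rw [h0] at hpos
      exact lt_irrefl _ hpos
  refine ⟨W, ⟨hW1, hWc, fun p hp => ⟨lt_of_lt_of_le hm (hbd p hp).1, (hbd p hp).2⟩, ?_, ?_⟩, hWu⟩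
  · intro R
    have h1 : IntegrableOn (fun p => Gx p ^ 2 + Gy p ^ 2) (Om ϕ ∩ Metric.ball 0 R) :=
      ((hGx R).integrable_sq).add ((hGy R).integrable_sq)
    have hr : volume.restrict (Om ϕ ∩ Metric.ball (0 : ℝ × ℝ) R)
        ≤ volume.restrict (Om ϕ) := Measure.restrict_mono inter_subset_left le_rfl
    refine Integrable.congr h1 ?_
    filter_upwards [ae_mono hr hdxW, ae_mono hr hdyW] with p h2 h3
    rw [h2, h3]
  · intro ψ h1 h2
    have h3 := h.wk ψ h1 h2
    have i1 : ∫ p in Om ϕ, (dx W p * dx ψ p + dy W p * dy ψ p)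
        = ∫ p in Om ϕ, (Gx p * dx ψ p + Gy p * dy ψ p) := by
      apply integral_congr_ae
      filter_upwards [hdxW, hdyW] with p h4 h5
      rw [h4, h5]
    have i2 : ∫ x, W (x, ϕ x) * ψ (x, ϕ x) * σ x = ∫ x, T x * ψ (x, ϕ x) * σ x := by
      apply integral_congr_ae
      filter_upwards [hT] with x h4
      rw [h4]
    have i3 : ∫ p in Om ϕ, f (W p) * ψ p = ∫ p in Om ϕ, f (u p) * ψ p := by
      apply integral_congr_ae
      filter_upwards [hWu] with p h4
      rw [h4]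
    rw [i1, i2, i3]
    exact h3

end Pool.Agent.W98.RB.Fin
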