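import Mathlib
import Pool.Agent.W98.RB.Final

/-!
# The two solutions and the frozen statement
-/

set_option autoImplicit false

open MeasureTheory Set Filter Topology
open scoped ENNReal NNReal

namespace Pool.Agent.W98.RBB

open Pool.Agent.H314.Robin

/-- the small solution, with a positive lower bound -/
theorem sol_B' (n : ℕ) : ∃ u : Pt n → ℝ, IsPosBddSol fR cα (floorFn Real.pi cL cw) u ∧
    (∀ᵐ z ∂(volume.restrict (epi (floorFn (n := n) Real.pi cL cw))), u z ≤ Qc n z) ∧
    ∀ z, Pc n (1 / 100) z ≤ u z := by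
  have hK : 345 ≤ cK n := by linarith [cK_ge' n]
  obtain ⟨U, hU, hEq, hae⟩ := Pool.Agent.H314.Robin.exists_between (Om n) cα_pos (cK_ge n) (FK_lip hK) (FK_zero _)
    (FK_mono hK) (P := Pc n (1 / 100)) (Q := Qc n)
    (Pc_isD n (by norm_num) (by norm_num)) (Qc_isD n)
    (fun z _ => by have := (Pc_bounds n (c := 1 / 100) (by norm_num) z).1; linarith)
    (fun z _ => by
      have := (Pc_bounds n (c := 1 / 100) (by norm_num) z).2
      have := (Qc_bounds n z).1
      linarith)
    (fun v hv hv0 => Pc_sub n (by norm_num) (by norm_num)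
      (fun s h1 h2 => fR_B (by linarith) (by linarith)) hv hv0)
    (fun v hv hv0 => Qc_sup n hv hv0)
  -- comparison with the constant one
  have hle : 0 ≤ pV (Om n) (io (Om n) (fun _ => 1) (isD_const 1) - U) := by
    apply comparison (Om n) cα_pos (cK_ge n) ((HH (Om n)).sub_mem (io_mem _ _) hU)
    intro v hv hv0
    rw [map_sub, _root_.sub_apply, hEq v hv, sub_nonneg]
    refine le_trans ?_ (const_sup (Om n) cα_pos (cK n) hv hv0)
    rw [← integral_const_mul]
    have hvi : Integrable v (mu (Om n)) :=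
      isD_integrable hv.smooth.continuous (cmp_bdd hv (Sum.inl true))
    apply integral_mono_of_nonneg
    · filter_upwards with z
      exact mul_nonneg (FK_nonneg hK _) (hv0 z)
    · exact hvi.const_mul _
    · filter_upwards with z
      exact mul_le_mul_of_nonneg_right (FK_le hK _) (hv0 z)
  have hle1 : ∀ᵐ z ∂(mu (Om n)), pV (Om n) U z ≤ 1 := by
    rw [map_sub, sub_nonneg, ← Lp.coeFn_le, pV_io] at hle
    filter_upwards [hle, (mV (Om n) (isD_const 1)).coeFn_toLp] with z h1 h2
    rw [h2] at h1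
    exact h1
  obtain ⟨u, hu, hueq, hPu⟩ := weak_of_fixed (Om n) fR_cont (fun s hs => FK_of_mem (cK n) hs)
    hU hEq
    (P := Pc n (1 / 100)) (Pc_isD n (by norm_num) (by norm_num)).smooth.continuous
    (fun z => by have := (Pc_bounds n (c := 1 / 100) (by norm_num) z).1; linarith)
    (fun z => by have := (Pc_bounds n (c := 1 / 100) (by norm_num) z).2; linarith)
    (by filter_upwards [hae, hle1] with z h1 h2; exact ⟨h1.1, h2⟩)
  refine ⟨u, hu, ?_, hPu⟩
  have h3 : ∀ᵐ z ∂(volume.restrict (epi (Om n).fn)), pV (Om n) U z ≤ Qc n z :=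
    (ae_mu_iff (Om n)).mp (hae.mono fun z hz => hz.2)
  rw [Om_fn] at hueq h3
  filter_upwards [hueq, h3] with z h4 h5
  rw [h4]; exact h5

end Pool.Agent.W98.RBB

namespace Pool.Agent.W98.RB.Fin2

open Pool.Agent.H314.Robin
open Pool.Agent.W98.RB.Tr (J)

lemma fR_bd {s : ℝ} (h0 : 0 ≤ s) (h1 : s ≤ 1) : 0 ≤ fR s ∧ fR s ≤ 100 := by
  have e : fR s = s * (1 - s) * (5 - 37 * s + 70 * s ^ 2) / 2 := by unfold fR; ring
  have h2 : 0 ≤ 5 - 37 * s + 70 * s ^ 2 := by nlinarith [sq_nonneg (s - 37 / 140)]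
  have h3 : 5 - 37 * s + 70 * s ^ 2 ≤ 80 := by nlinarith
  have h4 : 0 ≤ s * (1 - s) := mul_nonneg h0 (by linarith)
  have h5 : s * (1 - s) ≤ 1 := by nlinarith
  rw [e]
  constructor
  · positivity
  · nlinarith

lemma surfp_meas (H₀ L w : ℝ) : Measurable (surfp H₀ L w) := by
  unfold surfp
  refine Measurable.ite ?_ measurable_const measurable_const
  exact (measurableSet_lt measurable_const (continuous_abs.measurable)).inter
    (measurableSet_lt (continuous_abs.measurable) measurable_const)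

lemma surfp_nonneg (H₀ L w x : ℝ) : 0 ≤ surfp H₀ L w x := by
  unfold surfp
  split_ifs
  · exact Real.sqrt_nonneg _
  · norm_num

lemma surfp_le (H₀ L w x : ℝ) : surfp H₀ L w x ≤ Real.sqrt (1 + L ^ 2) := by
  unfold surfp
  split_ifs
  · exact le_rfl
  · rw [Real.one_le_sqrt]; nlinarith [sq_nonneg L]

/-- standing hypotheses for the starting solutions -/
theorem sol_of {u : Pt 0 → ℝ} (h : IsPosBddSol fR cα (floorFn Real.pi cL cw) u) :
    ∃ (Gx Gy : ℝ × ℝ → ℝ) (T : ℝ → ℝ) (v : ℕ → ℝ × ℝ → ℝ),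
      Sol Fin.ph Fin.KK cα (surfp Real.pi cL cw) (Real.sqrt (1 + cL ^ 2)) 100
        (fun p => u (J p)) Gx Gy T (fun p => fR (u (J p))) v := by
  obtain ⟨h1, G, T, h2, h3⟩ := h
  obtain ⟨v, hv⟩ := Tr.ap_of Real.pi cL cw h2
  refine ⟨fun p => G (some 0) (J p), fun p => G none (J p), fun x => T (fun _ => x), v, ?_⟩
  exact
    { lip := wellProfile_lip cL_pos
      apos := cα_pos
      ms := surfp_meas _ _ _
      s0 := surfp_nonneg _ _ _
      sS := surfp_le _ _ _
      mg := fR_cont.measurable.comp hv.mu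
      g0 := fun p hp => (fR_bd (h1 (J p) hp).1.le (h1 (J p) hp).2).1
      gF := fun p hp => (fR_bd (h1 (J p) hp).1.le (h1 (J p) hp).2).2
      u0 := fun p hp => (h1 (J p) hp).1.le
      u1 := fun p hp => (h1 (J p) hp).2
      ap := hv
      wk := Tr.weak_of Real.pi_pos cL_pos cw_gt h3 }

/-- two classical solutions -/
theorem two_good (hWL : S_WL) (hMOL : S_MOL) (hC1 : S_C1) (hID : S_ID) (hCONT : S_CONT)
    (hTR : S_TR) : ∃ U V : ℝ × ℝ → ℝ,
      Good Fin.ph cα (surfp Real.pi cL cw) fR U ∧ Good Fin.ph cα (surfp Real.pi cL cw) fR V ∧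
      ∃ p ∈ RB.Om Fin.ph, U p ≠ V p := by
  obtain ⟨u₁, h1, hA⟩ := sol_A 0
  obtain ⟨u₂, h2, hB, hC⟩ := Pool.Agent.W98.RBB.sol_B' 0
  obtain ⟨Gx, Gy, T, v, hs1⟩ := sol_of h1
  obtain ⟨Gx', Gy', T', v', hs2⟩ := sol_of h2
  obtain ⟨U, hU, hUe⟩ := Fin.good_of hWL hMOL hC1 hID hCONT hTR fR_cont hs1
    (m := 0.998 * (3 / 4)) (by norm_num) (fun p => by
      have h3 := (Pc_bounds 0 (c := 3 / 4) (by norm_num) (J p)).1
      exact h3.trans (hA (J p)))
  obtain ⟨V, hV, hVe⟩ := Fin.good_of hWL hMOL hC1 hID hCONT hTR fR_cont hs2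
    (m := 0.998 * (1 / 100)) (by norm_num) (fun p => by
      have h3 := (Pc_bounds 0 (c := 1 / 100) (by norm_num) (J p)).1
      exact h3.trans (hC (J p)))
  refine ⟨U, V, hU, hV, ?_⟩
  -- the open set where they differ
  set S : Set (ℝ × ℝ) := {p | |p.1| < 1 / 10 ^ 5} ∩ {p | -Real.pi < p.2} ∩ {p | p.2 < -2} with hS
  have hSo : IsOpen S := by
    apply IsOpen.inter
    · apply IsOpen.inter
      · exact isOpen_lt (by fun_prop) continuous_const
      · exact isOpen_lt continuous_const continuous_snd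
    · exact isOpen_lt continuous_snd continuous_const
  have hsub : S ⊆ RB.Om Fin.ph := by
    rintro z ⟨⟨hz1, hz2⟩, hz3⟩
    simp only [mem_ofPred_eq] at hz1 hz2 hz3
    show prof Real.pi cL cw z.1 < z.2
    have h4 := cw_sub
    have h5 := cL_pos
    have h6 : cL * (|z.1| - cw) ≤ -Real.pi := by
      have h7 : |z.1| - cw ≤ -(Real.pi / cL) := by linarith
      have h8 := mul_le_mul_of_nonneg_left h7 h5.le
      have h9 : cL * -(Real.pi / cL) = -Real.pi := by field_simp
      linarith
    unfold prof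
    rw [min_eq_right (h6.trans (by linarith [Real.pi_pos])), max_eq_left h6]
    exact hz2
  have hSne : S.Nonempty := by
    refine ⟨(0, -3), ⟨⟨by simp, ?_⟩, ?_⟩⟩
    · show -Real.pi < -3
      linarith [Real.pi_gt_three]
    · show (-3 : ℝ) < -2
      norm_num
  have hpos := hSo.measure_pos volume hSne
  by_contra hcon
  push Not at hcon
  have hBJ : ∀ᵐ p ∂(volume.restrict (RB.Om Fin.ph)), u₂ (J p) ≤ Qc 0 (J p) := by
    have h3 : MeasurePreserving (fun p : ℝ × ℝ => J p)
        (volume.restrict ((fun p : ℝ × ℝ => J p) ⁻¹' epi (floorFn Real.pi cL cw)))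
        (volume.restrict (epi (floorFn Real.pi cL cw))) :=
      Tr.mp_J.restrict_preimage_emb Tr.me_J _
    exact h3.quasiMeasurePreserving.ae hB
  have hr : volume.restrict S ≤ volume.restrict (RB.Om Fin.ph) :=
    Measure.restrict_mono hsub le_rfl
  have hfalse : ∀ᵐ p ∂(volume.restrict S), False := by
    filter_upwards [ae_mono hr hBJ, ae_mono hr hUe, ae_mono hr hVe,
      ae_restrict_mem hSo.measurableSet] with z hz1 hz3 hz4 hz5
    have h3 := (Qc_bounds 0 (J z)).2
    have h4 : Wf z.2 ≤ 0.635 := by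
      unfold Wf
      rw [min_eq_left (by have := hz5.2; simp only [mem_ofPred_eq] at this; linarith)]
      have h5 : Real.cos z.2 ≤ 0 := by
        have h6 := hz5.2
        have h7 := hz5.1.2
        simp only [mem_ofPred_eq] at h6 h7
        rw [← Real.cos_neg]
        apply Real.cos_nonpos_of_pi_div_two_le_of_le
        · have := Real.pi_lt_d2; linarith
        · linarith [Real.pi_pos]
      linarith
    have h8 := (Pc_bounds 0 (c := 3 / 4) (by norm_num) (J z)).1
    have h9 := hA (J z)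
    have h10 := hcon z (hsub hz5)
    rw [hz3, hz4] at h10
    have h11 : (J z).2 = z.2 := rfl
    rw [h11] at h3
    linarith
  rw [ae_iff] at hfalse
  simp only [not_false_eq_true, setOf_true, Measure.restrict_apply_univ] at hfalse
  rw [hfalse] at hpos
  exact lt_irrefl _ hpos

end Pool.Agent.W98.RB.Fin2
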