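import Mathlib
import Pool.Agent.W98.RB.Final2

/-!
# The frozen statement from the parts
-/

set_option autoImplicit false

open MeasureTheory

namespace Pool.Agent.W98.RB.Fin3

open Pool.Agent.H314.Robin (fR cα cL cw cL_pos cα_pos cw_gt fR_pos)

theorem main (hWL : S_WL) (hMOL : S_MOL) (hC1 : S_C1) (hID : S_ID) (hCONT : S_CONT)
    (hTR : S_TR) (hHAUS : S_HAUS) :
    ¬ (∀ (n : ℕ), 1 ≤ n →
    ∀ f : ℝ → ℝ, ContDiff ℝ 1 f →
    (∃ C γ : NNReal, 0 < γ ∧ γ < 1 ∧ HolderOnWith C γ (deriv f) (Set.Icc (0:ℝ) 1)) →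
    f 0 = 0 → f 1 = 0 → (∀ s ∈ Set.Ioo (0:ℝ) 1, 0 < f s) →
    0 < deriv f 0 → deriv f 1 < 0 →
    ∀ α : ℝ, 0 < α →
    ∀ φ : (Fin n → ℝ) → ℝ, (∃ K : NNReal, LipschitzWith K φ) →
    ∀ Ω : Set (EuclideanSpace ℝ (Fin (n+1))),
    Ω = {x | φ (fun i => x (Fin.castSucc i)) < x (Fin.last n)} →
    ∀ u v : EuclideanSpace ℝ (Fin (n+1)) → ℝ,
    (∀ w : EuclideanSpace ℝ (Fin (n+1)) → ℝ, (w = u ∨ w = v) →
      ContDiffOn ℝ 1 w Ω ∧ ContinuousOn w (closure Ω) ∧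
      (∀ x ∈ Ω, 0 < w x ∧ w x ≤ 1) ∧
      (∀ R : ℝ, IntegrableOn (fun x => ‖gradient w x‖ ^ 2) (Ω ∩ Metric.ball 0 R)) ∧
      (∀ ψ : EuclideanSpace ℝ (Fin (n+1)) → ℝ, ContDiff ℝ 1 ψ → HasCompactSupport ψ →
        (∫ x in Ω, inner ℝ (gradient w x) (gradient ψ x))
          + (1/α) * (∫ x in frontier Ω, w x * ψ x ∂(Measure.hausdorffMeasure (n:ℝ)))
          = ∫ x in Ω, f (w x) * ψ x)) →
    Set.EqOn u v Ω) := by
  intro hall
  obtain ⟨U, V, hU, hV, p, hp, hne⟩ := Fin2.two_good hWL hMOL hC1 hID hCONT hTR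
  have hder : ∀ s, HasDerivAt fR (Pool.Agent.Results.MP_1dc5fb_an.TwoSolutions.fR' s) s := by
    intro s
    have h1 := (hasDerivAt_id s).const_mul 5
    have h2 := (hasDerivAt_pow 2 s).const_mul 42
    have h3 := (hasDerivAt_pow 3 s).const_mul 107
    have h4 := (hasDerivAt_pow 4 s).const_mul 70
    have h5 := (((h1.sub h2).add h3).sub h4).div_const 2
    have h : HasDerivAt (fun s : ℝ => (5 * s - 42 * s ^ 2 + 107 * s ^ 3 - 70 * s ^ 4) / 2)
        ((5 * 1 - 42 * (2 * s) + 107 * (3 * s ^ 2) - 70 * (4 * s ^ 3)) / 2) s := by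
      simpa using h5
    have e1 : fR = fun s : ℝ => (5 * s - 42 * s ^ 2 + 107 * s ^ 3 - 70 * s ^ 4) / 2 := by
      funext s; unfold fR; ring
    have e2 : Pool.Agent.Results.MP_1dc5fb_an.TwoSolutions.fR' s
        = (5 * 1 - 42 * (2 * s) + 107 * (3 * s ^ 2) - 70 * (4 * s ^ 3)) / 2 := by
      unfold Pool.Agent.Results.MP_1dc5fb_an.TwoSolutions.fR'; ring
    rw [e1, e2]
    exact h
  have hderiv : deriv fR = Pool.Agent.Results.MP_1dc5fb_an.TwoSolutions.fR' :=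
    funext fun s => (hder s).deriv
  have hPR := Pool.Agent.Results.MP_1dc5fb_an.TwoSolutions.fR_reaction
  have hfc : ContDiff ℝ 1 fR := by
    unfold fR
    fun_prop
  have hhold : ∃ C γ : NNReal, 0 < γ ∧ γ < 1 ∧ HolderOnWith C γ (deriv fR) (Set.Icc (0:ℝ) 1) := by
    obtain ⟨γ, ⟨hγ0, hγ1⟩, C, hC⟩ := hPR.hoelder
    refine ⟨⟨max C 0, le_max_right _ _⟩, ⟨γ, hγ0.le⟩, ?_, ?_, ?_⟩
    · exact_mod_cast hγ0
    · exact_mod_cast hγ1
    · intro s hs t ht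
      rw [hderiv, edist_dist, edist_dist, Real.dist_eq, Real.dist_eq]
      have h1 := hC s hs t ht
      have h2 : |Pool.Agent.Results.MP_1dc5fb_an.TwoSolutions.fR' s
          - Pool.Agent.Results.MP_1dc5fb_an.TwoSolutions.fR' t| ≤ max C 0 * |s - t| ^ γ :=
        h1.trans (mul_le_mul_of_nonneg_right (le_max_left _ _)
          (Real.rpow_nonneg (abs_nonneg _) _))
      refine (ENNReal.ofReal_le_ofReal h2).trans ?_
      rw [ENNReal.ofReal_mul (le_max_right _ _)]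
      refine mul_le_mul' (le_of_eq ?_) (le_of_eq ?_)
      · rw [ENNReal.ofReal, Real.toNNReal_of_nonneg (le_max_right _ _)]
        rfl
      · rw [← ENNReal.ofReal_rpow_of_nonneg (abs_nonneg _) hγ0.le]
        rfl
  have hϕ : Continuous Fin.ph := Tr.prof_cont _ _ _
  have hσ : Measurable (surfp Real.pi cL cw) := Fin2.surfp_meas _ _ _
  have hσ0 := Fin2.surfp_nonneg Real.pi cL cw
  have hH := hHAUS Real.pi cL cw Real.pi_pos cL_pos cw_gt
  have c1 := T2.conds hϕ hσ hσ0 hH hU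
  have c2 := T2.conds hϕ hσ hσ0 hH hV
  have hlip : LipschitzWith Fin.KK (fun x : Fin 1 → ℝ => Fin.ph (x 0)) := by
    have h1 : LipschitzWith Fin.KK Fin.ph := Pool.Agent.H314.Robin.wellProfile_lip cL_pos
    have h2 : LipschitzWith 1 (fun x : Fin 1 → ℝ => x 0) := LipschitzWith.eval 0
    have h3 := h1.comp h2
    rwa [mul_one] at h3
  have key := hall 1 le_rfl fR hfc hhold hPR.zero hPR.one (fun s hs => fR_pos hs.1 hs.2)
    (by rw [hderiv]; exact hPR.deriv_zero) (by rw [hderiv]; exact hPR.deriv_one)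
    cα cα_pos (fun x => Fin.ph (x 0)) ⟨_, hlip⟩ (T2.OmE Fin.ph) rfl
    (fun x => U (T2.Q x)) (fun x => V (T2.Q x)) ?_
  · have h1 := key (show T2.Q' p ∈ T2.OmE Fin.ph by
      show T2.Q (T2.Q' p) ∈ Om Fin.ph
      rw [T2.Q_Q']; exact hp)
    simp only [T2.Q_Q'] at h1
    exact hne h1
  · intro w hw
    have e : ((1 : ℕ) : ℝ) = 1 := Nat.cast_one
    rw [e]
    rcases hw with rfl | rfl
    · exact c1
    · exact c2

end Pool.Agent.W98.RB.Fin3
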