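import Mathlib
import Pool.Agent.W98.RB.Defs

set_option autoImplicit false

open MeasureTheory Set Filter Topology
open scoped ENNReal NNReal

namespace Pool.Agent.W98.RB

/-- Fubini over the epigraph -/
lemma fub {ϕ : ℝ → ℝ} (hϕ : Continuous ϕ) {h : ℝ × ℝ → ℝ} (hi : Integrable h) :
    ∫ p in Om ϕ, h p = ∫ x, ∫ y in Ioi (ϕ x), h (x, y) := by
  have hO : MeasurableSet (Om ϕ) :=
    (isOpen_lt (hϕ.comp continuous_fst) continuous_snd).measurableSet
  rw [← integral_indicator hO]
  have h1 : Integrable ((Om ϕ).indicator h) (volume.prod volume) := by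
    rw [← Measure.volume_eq_prod]; exact hi.indicator hO
  rw [Measure.volume_eq_prod, integral_prod _ h1]
  apply integral_congr_ae
  filter_upwards with x
  rw [← integral_indicator measurableSet_Ioi]
  rfl

lemma hasDeriv_vert {ψ : ℝ × ℝ → ℝ} (hψ : ContDiff ℝ 1 ψ) (x t : ℝ) :
    HasDerivAt (fun t => ψ (x, t)) (dy ψ (x, t)) t := by
  have h1 : HasFDerivAt ψ (fderiv ℝ ψ (x, t)) (x, t) :=
    (hψ.differentiable (by norm_num)).differentiableAt.hasFDerivAt
  have h2 : HasDerivAt (fun t : ℝ => ((x, t) : ℝ × ℝ)) (0, 1) t :=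
    (hasDerivAt_const t x).prodMk (hasDerivAt_id t)
  exact h1.comp_hasDerivAt t h2

lemma dy_cont {ψ : ℝ × ℝ → ℝ} (hψ : ContDiff ℝ 1 ψ) : Continuous (dy ψ) :=
  (hψ.continuous_fderiv (by norm_num)).clm_apply continuous_const

lemma dy_supp {ψ : ℝ × ℝ → ℝ} (hc : HasCompactSupport ψ) : HasCompactSupport (dy ψ) := by
  have h := hc.fderiv (𝕜 := ℝ)
  refine h.mono' ?_
  intro p hp
  apply subset_closure
  intro h0
  apply hp
  show fderiv ℝ ψ p (0, 1) = 0
  rw [h0]; rfl

lemma vert_supp {ψ : ℝ × ℝ → ℝ} (hc : HasCompactSupport ψ) (x : ℝ) :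
    HasCompactSupport fun t => ψ (x, t) := by
  have : Topology.IsClosedEmbedding (fun t : ℝ => ((x, t) : ℝ × ℝ)) := by
    refine Topology.IsClosedEmbedding.of_continuous_injective_isClosedMap (by fun_prop)
      (fun a b hab => (Prod.mk.inj hab).2) ?_
    intro S hS
    have : (fun t : ℝ => ((x, t) : ℝ × ℝ)) '' S = {x} ×ˢ S := by
      ext ⟨a, b⟩; simp [and_comm, eq_comm]
    rw [this]
    exact isClosed_singleton.prod hS
  exact hc.comp_isClosedEmbedding this

lemma vert_int {h : ℝ × ℝ → ℝ} (hh : Continuous h) (hc : HasCompactSupport h) (x : ℝ) :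
    Integrable fun t => h (x, t) :=
  (hh.comp (by fun_prop : Continuous fun t : ℝ => ((x, t) : ℝ × ℝ))).integrable_of_hasCompactSupport
    (vert_supp hc x)

lemma vert_ftc {ψ : ℝ × ℝ → ℝ} (hψ : ContDiff ℝ 1 ψ) (hc : HasCompactSupport ψ) (x y : ℝ) :
    ∫ t in Ioi y, dy ψ (x, t) = -ψ (x, y) := by
  have h1 : Tendsto (fun t => ψ (x, t)) atTop (𝓝 0) := by
    have := (vert_supp hc x).is_zero_at_infty
    exact this.mono_left atTop_le_cocompact
  have := integral_Ioi_of_hasDerivAt_of_tendsto' (a := y) (m := 0)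
    (f := fun t => ψ (x, t)) (f' := fun t => dy ψ (x, t)) (fun t _ => hasDeriv_vert hψ x t)
    (vert_int (dy_cont hψ) (dy_supp hc) x).integrableOn h1
  rw [this]; ring

theorem T_LIN : S_LIN := by
  intro ϕ hϕ ψ hψ hc
  rw [fub hϕ ((dy_cont hψ).integrable_of_hasCompactSupport (dy_supp hc)), ← integral_neg]
  apply integral_congr_ae
  filter_upwards with x
  exact vert_ftc hψ hc x (ϕ x)

theorem T_POI : S_POI := by
  intro ϕ hϕ ψ hψ hc y₁ h hh hsupp
  have hi1 : Integrable fun p => |ψ p| := by
    have : Continuous fun p => |ψ p| := hψ.continuous.abs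
    exact this.integrable_of_hasCompactSupport hc.abs
  have hi2 : Integrable fun p => |dy ψ p| := by
    have : Continuous fun p => |dy ψ p| := (dy_cont hψ).abs
    exact this.integrable_of_hasCompactSupport (dy_supp hc).abs
  rw [fub hϕ hi1, fub hϕ hi2, ← integral_const_mul]
  have key : ∀ x, ∫ y in Ioi (ϕ x), |ψ (x, y)| ≤ h * ∫ y in Ioi (ϕ x), |dy ψ (x, y)| := by
    intro x
    set m := ∫ y in Ioi (ϕ x), |dy ψ (x, y)| with hm
    have hdi : Integrable fun t => |dy ψ (x, t)| := (vert_int (dy_cont hψ) (dy_supp hc) x).abs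
    have hb : ∀ y ∈ Ioi (ϕ x), |ψ (x, y)| ≤ m := by
      intro y hy
      have h1 := vert_ftc hψ hc x y
      have h2 : |ψ (x, y)| = |∫ t in Ioi y, dy ψ (x, t)| := by rw [h1, abs_neg]
      rw [h2]
      refine (abs_integral_le_integral_abs).trans ?_
      apply setIntegral_mono_set hdi.integrableOn
      · filter_upwards with t using abs_nonneg _
      · exact (Ioi_subset_Ioi (le_of_lt hy)).eventuallyLE
    have hm0 : 0 ≤ m := integral_nonneg fun t => abs_nonneg _
    -- the integrand vanishes outside Icc y₁ (y₁+h)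
    have h3 : ∀ y ∈ Ioi (ϕ x), |ψ (x, y)| ≤ (Icc y₁ (y₁ + h)).indicator (fun _ => m) y := by
      intro y hy
      by_cases hz : ψ (x, y) = 0
      · rw [hz, abs_zero]
        exact indicator_nonneg (fun _ _ => hm0) _
      · have hmem : y ∈ Icc y₁ (y₁ + h) := hsupp (x, y) hy hz
        rw [indicator_of_mem hmem]
        exact hb y hy
    have hci : Integrable ((Icc y₁ (y₁ + h)).indicator fun _ => m) := by
      rw [integrable_indicator_iff measurableSet_Icc]
      exact integrableOn_const (by simp) (by simp)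
    calc ∫ y in Ioi (ϕ x), |ψ (x, y)|
        ≤ ∫ y in Ioi (ϕ x), (Icc y₁ (y₁ + h)).indicator (fun _ => m) y :=
          setIntegral_mono_on (vert_int hψ.continuous hc x).abs.integrableOn hci.integrableOn
            measurableSet_Ioi h3
      _ ≤ ∫ y, (Icc y₁ (y₁ + h)).indicator (fun _ => m) y :=
          setIntegral_le_integral hci (by
            filter_upwards with y using indicator_nonneg (fun _ _ => hm0) _)
      _ = h * m := by
          rw [integral_indicator measurableSet_Icc, setIntegral_const]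
          simp [hh]
  apply integral_mono_of_nonneg
  · filter_upwards with x using integral_nonneg fun y => abs_nonneg _
  · apply Integrable.const_mul
    have hO : MeasurableSet (Om ϕ) :=
      (isOpen_lt (hϕ.comp continuous_fst) continuous_snd).measurableSet
    have h1 : Integrable ((Om ϕ).indicator fun p => |dy ψ p|) (volume.prod volume) := by
      rw [← Measure.volume_eq_prod]; exact hi2.indicator hO
    have h2 := h1.integral_prod_left
    refine h2.congr ?_
    filter_upwards with x
    rw [← integral_indicator measurableSet_Ioi]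
    rfl
  · filter_upwards with x using key x

end Pool.Agent.W98.RB
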