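import Mathlib
import Pool.Agent.W98.RB.Defs

set_option autoImplicit false

open MeasureTheory Set Filter Topology
open scoped ENNReal NNReal ContDiff

namespace Pool.Agent.W98.RB

/-- measure of a bounded piece -/
lemma fin_piece (ϕ : ℝ → ℝ) (R : ℝ) :
    IsFiniteMeasure (volume.restrict (Om ϕ ∩ Metric.ball (0 : ℝ × ℝ) R)) := ⟨by
  rw [Measure.restrict_apply_univ]
  exact lt_of_le_of_lt (measure_mono inter_subset_right) measure_ball_lt_top⟩

/-- a limit in `L²` of continuous functions is in `L²` (bounded pieces) -/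
lemma memLp_lim {ϕ : ℝ → ℝ} (hϕ : Continuous ϕ) {a : ℕ → ℝ × ℝ → ℝ} {b : ℝ × ℝ → ℝ}
    (ha : ∀ k, Continuous (a k)) (hb : Measurable b) {R : ℝ}
    (hc : Tendsto (fun k => eLpNorm (fun p => a k p - b p) 2
        (volume.restrict (Om ϕ ∩ Metric.ball 0 R))) atTop (𝓝 0)) :
    (∀ k, MemLp (a k) 2 (volume.restrict (Om ϕ ∩ Metric.ball 0 R))) ∧
    MemLp b 2 (volume.restrict (Om ϕ ∩ Metric.ball 0 R)) := by
  have hO : MeasurableSet (Om ϕ) :=
    (isOpen_lt (hϕ.comp continuous_fst) continuous_snd).measurableSet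
  have hfin := fin_piece ϕ R
  have h2 : ∀ k, MemLp (a k) 2 (volume.restrict (Om ϕ ∩ Metric.ball 0 R)) := by
    intro k
    obtain ⟨C, hC⟩ := (isCompact_closedBall (0 : ℝ × ℝ) R).exists_bound_of_continuousOn
      (ha k).continuousOn
    refine MemLp.of_bound (ha k).aestronglyMeasurable C ?_
    filter_upwards [ae_restrict_mem (hO.inter measurableSet_ball)] with p hp
    exact hC p (Metric.ball_subset_closedBall hp.2)
  refine ⟨h2, ?_⟩
  obtain ⟨k, hk⟩ := (hc.eventually (gt_mem_nhds (show (0:ℝ≥0∞) < 1 by norm_num))).exists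
  have h1 : MemLp (fun p => a k p - b p) 2 (volume.restrict (Om ϕ ∩ Metric.ball 0 R)) :=
    ⟨((ha k).measurable.sub hb).aestronglyMeasurable, hk.trans ENNReal.one_lt_top⟩
  have h3 := (h2 k).sub h1
  have : (a k - fun p => a k p - b p) = b := by
    funext p; simp
  rwa [this] at h3

/-- passage to the limit against a bounded function -/
lemma lim_int {ϕ : ℝ → ℝ} (hϕ : Continuous ϕ) {a : ℕ → ℝ × ℝ → ℝ} {b : ℝ × ℝ → ℝ}
    (ha : ∀ k, Continuous (a k)) (hb : Measurable b) {R : ℝ}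
    (hc : Tendsto (fun k => eLpNorm (fun p => a k p - b p) 2
        (volume.restrict (Om ϕ ∩ Metric.ball 0 R))) atTop (𝓝 0))
    {φ : ℝ × ℝ → ℝ} (hφ : Continuous φ) (hφc : HasCompactSupport φ)
    (hR : Function.support φ ⊆ Metric.ball 0 R) :
    Tendsto (fun k => ∫ p in Om ϕ, a k p * φ p) atTop (𝓝 (∫ p in Om ϕ, b p * φ p)) := by
  have hO : MeasurableSet (Om ϕ) :=
    (isOpen_lt (hϕ.comp continuous_fst) continuous_snd).measurableSet
  have hfin := fin_piece ϕ R
  obtain ⟨h1, h2⟩ := memLp_lim hϕ ha hb hc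
  obtain ⟨C, hC⟩ := hφ.bounded_above_of_compact_support hφc
  have hres : ∀ c : ℝ × ℝ → ℝ, ∫ p in Om ϕ, c p * φ p
      = ∫ p in Om ϕ ∩ Metric.ball 0 R, c p * φ p := by
    intro c
    apply setIntegral_eq_of_subset_of_forall_sdiff_eq_zero hO inter_subset_left
    rintro p ⟨hp1, hp2⟩
    have : φ p = 0 := by
      by_contra h
      exact hp2 ⟨hp1, hR h⟩
    rw [this, mul_zero]
  simp only [hres]
  have hbd : ∀ {c : ℝ × ℝ → ℝ}, MemLp c 2 (volume.restrict (Om ϕ ∩ Metric.ball 0 R)) →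
      Integrable (fun p => c p * φ p) (volume.restrict (Om ϕ ∩ Metric.ball 0 R)) := by
    intro c hc
    have := (hc.integrable (by norm_num)).bdd_mul (c := C) hφ.aestronglyMeasurable
      (by filter_upwards with p using hC p)
    refine this.congr ?_
    filter_upwards with p
    ring
  refine tendsto_integral_of_L1' _ (hbd h2).aestronglyMeasurable (Eventually.of_forall fun k => hbd (h1 k)) ?_
  have hC0 : 0 ≤ C := (norm_nonneg _).trans (hC 0)
  -- bound
  set μ := volume.restrict (Om ϕ ∩ Metric.ball (0 : ℝ × ℝ) R) with hμ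
  have hle : ∀ k, eLpNorm ((fun p => a k p * φ p) - fun p => b p * φ p) 1 μ
      ≤ ENNReal.ofReal C * (eLpNorm (fun p => a k p - b p) 2 μ * μ univ ^ (1 / 1 - 1 / 2 : ℝ)) := by
    intro k
    have e1 : eLpNorm ((fun p => a k p * φ p) - fun p => b p * φ p) 1 μ
        ≤ ENNReal.ofReal C * eLpNorm (fun p => a k p - b p) 1 μ := by
      apply eLpNorm_le_mul_eLpNorm_of_ae_le_mul
      filter_upwards with p
      simp only [Pi.sub_apply]
      rw [← sub_mul, norm_mul, mul_comm]
      exact mul_le_mul_of_nonneg_right (hC p) (norm_nonneg _)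
    refine e1.trans ?_
    gcongr
    have := eLpNorm_le_eLpNorm_mul_rpow_measure_univ (μ := μ) (p := 1) (q := 2) (by norm_num)
      (f := fun p => a k p - b p) ((ha k).measurable.sub hb).aestronglyMeasurable
    simpa using this
  refine tendsto_of_tendsto_of_tendsto_of_le_of_le tendsto_const_nhds ?_ (fun k => bot_le) hle
  have h3 : Tendsto (fun k => eLpNorm (fun p => a k p - b p) 2 μ * μ univ ^ (1 / 1 - 1 / 2 : ℝ))
      atTop (𝓝 (0 * μ univ ^ (1 / 1 - 1 / 2 : ℝ))) := by
    apply ENNReal.Tendsto.mul_const hc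
    right
    exact (ENNReal.rpow_lt_top_of_nonneg (by norm_num) (measure_ne_top _ _)).ne
  have h4 := ENNReal.Tendsto.const_mul (a := ENNReal.ofReal C) h3 (Or.inr ENNReal.ofReal_ne_top)
  simpa using h4

/-- the two first-order identities -/
lemma wl1 {ϕ : ℝ → ℝ} (hϕ : Continuous ϕ) {u G : ℝ × ℝ → ℝ} {v : ℕ → ℝ × ℝ → ℝ}
    (hu : Measurable u) (hG : Measurable G) (hv : ∀ k, ContDiff ℝ 1 (v k)) (e : ℝ × ℝ)
    (cu : ∀ R : ℝ, Tendsto (fun k => eLpNorm (fun p => v k p - u p) 2
      (volume.restrict (Om ϕ ∩ Metric.ball 0 R))) atTop (𝓝 0))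
    (cG : ∀ R : ℝ, Tendsto (fun k => eLpNorm (fun p => fderiv ℝ (v k) p e - G p) 2
      (volume.restrict (Om ϕ ∩ Metric.ball 0 R))) atTop (𝓝 0))
    {η : ℝ × ℝ → ℝ} (hη : ContDiff ℝ 1 η) (hηc : HasCompactSupport η) (hηs : tsupport η ⊆ Om ϕ) :
    ∫ p in Om ϕ, u p * fderiv ℝ η p e = -∫ p in Om ϕ, G p * η p := by
  have hdc : ∀ {w : ℝ × ℝ → ℝ}, ContDiff ℝ 1 w → Continuous fun p => fderiv ℝ w p e :=
    fun hw => (hw.continuous_fderiv (by norm_num)).clm_apply continuous_const
  have hds : HasCompactSupport fun p => fderiv ℝ η p e := hηc.fderiv_apply (𝕜 := ℝ) e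
  obtain ⟨R, hR⟩ := (hηc.isCompact.isBounded.union hds.isCompact.isBounded).subset_ball 0
  have hO : MeasurableSet (Om ϕ) :=
    (isOpen_lt (hϕ.comp continuous_fst) continuous_snd).measurableSet
  have h1 := lim_int hϕ (fun k => (hv k).continuous) hu (cu R) (hdc hη) hds
    ((subset_tsupport _).trans (subset_union_right.trans hR))
  have h2 := (lim_int hϕ (fun k => hdc (hv k)) hG (cG R) hη.continuous hηc
    ((subset_tsupport _).trans (subset_union_left.trans hR))).neg
  refine tendsto_nhds_unique h1 ?_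
  refine h2.congr fun k => ?_
  -- integration by parts for smooth functions
  have e1 : ∫ p in Om ϕ, v k p * fderiv ℝ η p e = ∫ p, v k p * fderiv ℝ η p e := by
    apply setIntegral_eq_integral_of_forall_compl_eq_zero
    intro p hp
    have h3 : p ∉ tsupport η := fun h => hp (hηs h)
    have : fderiv ℝ η p = 0 := by
      have h4 : p ∉ tsupport (fderiv ℝ η) := fun h => h3 (tsupport_fderiv_subset ℝ h)
      exact image_eq_zero_of_notMem_tsupport h4
    rw [this]; simp
  have e2 : ∫ p in Om ϕ, fderiv ℝ (v k) p e * η p = ∫ p, fderiv ℝ (v k) p e * η p := by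
    apply setIntegral_eq_integral_of_forall_compl_eq_zero
    intro p hp
    have h3 : p ∉ tsupport η := fun h => hp (hηs h)
    rw [image_eq_zero_of_notMem_tsupport h3, mul_zero]
  rw [e1, e2]
  have := integral_mul_fderiv_eq_neg_fderiv_mul_of_integrable (μ := (volume : Measure (ℝ × ℝ)))
    (f := v k) (g := η) (v := e)
    (((hdc (hv k)).mul hη.continuous).integrable_of_hasCompactSupport hηc.mul_left)
    (((hv k).continuous.mul (hdc hη)).integrable_of_hasCompactSupport hds.mul_left)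
    (((hv k).continuous.mul hη.continuous).integrable_of_hasCompactSupport hηc.mul_left)
    (fun p _ => ((hv k).differentiable (by norm_num)).differentiableAt)
    (fun p _ => (hη.differentiable (by norm_num)).differentiableAt)
  rw [this]

theorem T_WL : S_WL := by
  intro ϕ K α σ S F u Gx Gy T g v h η hη hηc hηs
  have hϕ : Continuous ϕ := h.lip.continuous
  have hO : MeasurableSet (Om ϕ) :=
    (isOpen_lt (hϕ.comp continuous_fst) continuous_snd).measurableSet
  have hη1 : ContDiff ℝ 1 η := hη.of_le (by exact_mod_cast le_top)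
  have hη2 : ContDiff ℝ 2 η := by exact_mod_cast (contDiff_infty.mp hη 2)
  have ix : ∀ {ζ : ℝ × ℝ → ℝ}, ContDiff ℝ 1 ζ → HasCompactSupport ζ → tsupport ζ ⊆ Om ϕ →
      ∫ p in Om ϕ, u p * dx ζ p = -∫ p in Om ϕ, Gx p * ζ p := fun a b c =>
    wl1 hϕ h.ap.mu h.ap.mx h.ap.c1 (1, 0) h.ap.cu h.ap.cx a b c
  have iy : ∀ {ζ : ℝ × ℝ → ℝ}, ContDiff ℝ 1 ζ → HasCompactSupport ζ → tsupport ζ ⊆ Om ϕ →
      ∫ p in Om ϕ, u p * dy ζ p = -∫ p in Om ϕ, Gy p * ζ p := fun a b c =>
    wl1 hϕ h.ap.mu h.ap.my h.ap.c1 (0, 1) h.ap.cu h.ap.cy a b c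
  refine ⟨ix hη1 hηc hηs, iy hη1 hηc hηs, ?_⟩
  have hdx : ContDiff ℝ 1 (dx η) :=
    (hη2.fderiv_right (m := 1) (by norm_num)).clm_apply contDiff_const
  have hdy : ContDiff ℝ 1 (dy η) :=
    (hη2.fderiv_right (m := 1) (by norm_num)).clm_apply contDiff_const
  have hdxc : HasCompactSupport (dx η) := hηc.fderiv_apply (𝕜 := ℝ) (1, 0)
  have hdyc : HasCompactSupport (dy η) := hηc.fderiv_apply (𝕜 := ℝ) (0, 1)
  have hts : ∀ e : ℝ × ℝ, tsupport (fun p => fderiv ℝ η p e) ⊆ tsupport η := by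
    intro e
    apply closure_minimal _ (isClosed_tsupport η)
    intro p hp
    by_contra hq
    have h4 : p ∉ tsupport (fderiv ℝ η) := fun h => hq (tsupport_fderiv_subset ℝ h)
    apply hp
    show fderiv ℝ η p e = 0
    rw [image_eq_zero_of_notMem_tsupport h4]; rfl
  have h1 := ix hdx hdxc ((hts (1, 0)).trans hηs)
  have h2 := iy hdy hdyc ((hts (0, 1)).trans hηs)
  have hw := h.wk η hη1 hηc
  have h0 : ∀ x, η (x, ϕ x) = 0 := by
    intro x
    apply image_eq_zero_of_notMem_tsupport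
    intro h3
    have h4 : ϕ x < ϕ x := hηs h3
    exact lt_irrefl _ h4
  have h5 : ∫ x, T x * η (x, ϕ x) * σ x = 0 := by
    simp [h0]
  rw [h5, mul_zero, add_zero] at hw
  -- integrability
  obtain ⟨R, hR⟩ := (hηc.isCompact.isBounded).subset_ball 0
  have hfin := fin_piece ϕ R
  have hdcx : ∀ k, Continuous (dx (v k)) := fun k =>
    ((h.ap.c1 k).continuous_fderiv (by norm_num)).clm_apply continuous_const
  have hdcy : ∀ k, Continuous (dy (v k)) := fun k =>
    ((h.ap.c1 k).continuous_fderiv (by norm_num)).clm_apply continuous_const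
  have mu := (memLp_lim hϕ (fun k => (h.ap.c1 k).continuous) h.ap.mu (h.ap.cu R)).2
  have mx := (memLp_lim hϕ hdcx h.ap.mx (h.ap.cx R)).2
  have my := (memLp_lim hϕ hdcy h.ap.my (h.ap.cy R)).2
  have hI : ∀ {c φ : ℝ × ℝ → ℝ}, MemLp c 2 (volume.restrict (Om ϕ ∩ Metric.ball 0 R)) →
      Continuous φ → HasCompactSupport φ → tsupport φ ⊆ tsupport η →
      IntegrableOn (fun p => c p * φ p) (Om ϕ) := by
    intro c φ hc hφ hφc hφs
    obtain ⟨C, hC⟩ := hφ.bounded_above_of_compact_support hφc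
    have h6 : IntegrableOn (fun p => c p * φ p) (Om ϕ ∩ Metric.ball 0 R) := by
      have := (hc.integrable (by norm_num)).bdd_mul (c := C) hφ.aestronglyMeasurable
        (by filter_upwards with p using hC p)
      refine Integrable.congr this ?_
      filter_upwards with p
      ring
    refine IntegrableOn.of_forall_sdiff_eq_zero h6 hO ?_
    rintro p ⟨hp1, hp2⟩
    have : φ p = 0 := by
      by_contra h7
      exact hp2 ⟨hp1, hR (hφs (subset_tsupport _ h7))⟩
    rw [this, mul_zero]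
  have hdxx : Continuous (dx (dx η)) := (hdx.continuous_fderiv (by norm_num)).clm_apply
    continuous_const
  have hdyy : Continuous (dy (dy η)) := (hdy.continuous_fderiv (by norm_num)).clm_apply
    continuous_const
  have hdxxc : HasCompactSupport (dx (dx η)) := hdxc.fderiv_apply (𝕜 := ℝ) (1, 0)
  have hdyyc : HasCompactSupport (dy (dy η)) := hdyc.fderiv_apply (𝕜 := ℝ) (0, 1)
  have hts2 : ∀ (ζ : ℝ × ℝ → ℝ) (e : ℝ × ℝ), tsupport (fun p => fderiv ℝ ζ p e) ⊆ tsupport ζ := by
    intro ζ e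
    apply closure_minimal _ (isClosed_tsupport ζ)
    intro p hp
    by_contra hq
    have h4 : p ∉ tsupport (fderiv ℝ ζ) := fun h => hq (tsupport_fderiv_subset ℝ h)
    apply hp
    show fderiv ℝ ζ p e = 0
    rw [image_eq_zero_of_notMem_tsupport h4]; rfl
  have i1 := hI mu hdxx hdxxc ((hts2 (dx η) (1, 0)).trans (hts (1, 0)))
  have i2 := hI mu hdyy hdyyc ((hts2 (dy η) (0, 1)).trans (hts (0, 1)))
  have i3 := hI mx hdx.continuous hdxc (hts (1, 0))
  have i4 := hI my hdy.continuous hdyc (hts (0, 1))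
  have e1 : ∫ p in Om ϕ, u p * lap η p
      = (∫ p in Om ϕ, u p * dx (dx η) p) + ∫ p in Om ϕ, u p * dy (dy η) p := by
    rw [← integral_add i1 i2]
    apply integral_congr_ae
    filter_upwards with p
    unfold lap; ring
  have e2 : ∫ p in Om ϕ, (Gx p * dx η p + Gy p * dy η p)
      = (∫ p in Om ϕ, Gx p * dx η p) + ∫ p in Om ϕ, Gy p * dy η p :=
    integral_add i3 i4
  rw [e1, h1, h2, ← hw, e2]
  ring

end Pool.Agent.W98.RB
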